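import Pool.Agent.Lib.H65H.Near

/-!
# Covering
-/

set_option autoImplicit false

namespace H65H

/-- First coordinate of `q w qbar`. -/
def X1 (a b c d x y z : ℤ) : ℤ :=
  (a ^ 2 + b ^ 2 - c ^ 2 - d ^ 2) * x + 2 * (b * c - a * d) * y + 2 * (b * d + a * c) * z

/-- Second coordinate of `q w qbar`. -/
def X2 (a b c d x y z : ℤ) : ℤ :=
  2 * (b * c + a * d) * x + (a ^ 2 - b ^ 2 + c ^ 2 - d ^ 2) * y + 2 * (c * d - a * b) * z

/-- Third coordinate of `q w qbar`. -/
def X3 (a b c d x y z : ℤ) : ℤ :=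
  2 * (b * d - a * c) * x + 2 * (c * d + a * b) * y + (a ^ 2 - b ^ 2 - c ^ 2 + d ^ 2) * z

theorem X_norm (a b c d x y z : ℤ) :
    X1 a b c d x y z ^ 2 + X2 a b c d x y z ^ 2 + X3 a b c d x y z ^ 2 =
      (a ^ 2 + b ^ 2 + c ^ 2 + d ^ 2) ^ 2 * (x ^ 2 + y ^ 2 + z ^ 2) := by
  unfold X1 X2 X3
  ring

/-- Products of numbers close to `s p` and `s r`. -/
theorem prodb {s α β p r : ℤ} (hs : 0 < s) (ha : 85 * |α - s * p| ≤ s) (hb : 85 * |β - s * r| ≤ s)
    (hp : |p| ≤ 1) (hr : |r| ≤ 1) : 42 * |α * β - s ^ 2 * (p * r)| ≤ s ^ 2 := by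
  have e : α * β - s ^ 2 * (p * r) =
      (α - s * p) * (β - s * r) + s * p * (β - s * r) + s * r * (α - s * p) := by ring
  have h1 : |α * β - s ^ 2 * (p * r)| ≤
      |α - s * p| * |β - s * r| + s * |β - s * r| + s * |α - s * p| := by
    rw [e]
    refine (abs_add_le _ _).trans ?_
    refine add_le_add ((abs_add_le _ _).trans (add_le_add (abs_mul _ _).le ?_)) ?_
    · rw [abs_mul, abs_mul, abs_of_pos hs]
      have := mul_le_mul_of_nonneg_left hp hs.le
      nlinarith [abs_nonneg (β - s * r)]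
    · rw [abs_mul, abs_mul, abs_of_pos hs]
      have := mul_le_mul_of_nonneg_left hr hs.le
      nlinarith [abs_nonneg (α - s * p)]
  obtain ⟨u, hu⟩ : ∃ u, u = |α - s * p| := ⟨_, rfl⟩
  obtain ⟨v, hv⟩ : ∃ v, v = |β - s * r| := ⟨_, rfl⟩
  have hu0 : 0 ≤ u := hu ▸ abs_nonneg _
  have hv0 : 0 ≤ v := hv ▸ abs_nonneg _
  rw [← hu, ← hv] at h1
  rw [← hu] at ha
  rw [← hv] at hb
  have h2 : 85 * u * (85 * v) ≤ s * s := mul_le_mul ha hb (by linarith) hs.le
  have h3 : 85 * u * s ≤ s * s := mul_le_mul_of_nonneg_right ha hs.le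
  have h4 : 85 * v * s ≤ s * s := mul_le_mul_of_nonneg_right hb hs.le
  nlinarith

/-- A linear form with coefficients close to `s ^ 2` times those of another one. -/
theorem form_close {S A B C A' B' C' x y z : ℤ} (hx : 0 ≤ x) (hy : 0 ≤ y) (hz : 0 ≤ z)
    (hA : 42 * |9 * A - S * A'| ≤ 4 * S) (hB : 42 * |9 * B - S * B'| ≤ 4 * S)
    (hC : 42 * |9 * C - S * C'| ≤ 4 * S) :
    42 * |9 * (A * x + B * y + C * z) - S * (A' * x + B' * y + C' * z)| ≤ 4 * S * (x + y + z) := by
  have e : 9 * (A * x + B * y + C * z) - S * (A' * x + B' * y + C' * z) =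
      (9 * A - S * A') * x + (9 * B - S * B') * y + (9 * C - S * C') * z := by ring
  have h1 : |9 * (A * x + B * y + C * z) - S * (A' * x + B' * y + C' * z)| ≤
      |9 * A - S * A'| * x + |9 * B - S * B'| * y + |9 * C - S * C'| * z := by
    rw [e]
    refine (abs_add_le _ _).trans (add_le_add ((abs_add_le _ _).trans (add_le_add ?_ ?_)) ?_)
    · rw [abs_mul, abs_of_nonneg hx]
    · rw [abs_mul, abs_of_nonneg hy]
    · rw [abs_mul, abs_of_nonneg hz]
  have h2 := mul_le_mul_of_nonneg_right hA hx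
  have h3 := mul_le_mul_of_nonneg_right hB hy
  have h4 := mul_le_mul_of_nonneg_right hC hz
  linarith

/-- The three coordinates are close to `s ^ 2 / 9` times those of the model. -/
theorem close {s a b c d p0 p1 p2 p3 x y z : ℤ} (hs : 0 < s)
    (h0 : 85 * |3 * a - s * p0| ≤ s) (h1 : 85 * |3 * b - s * p1| ≤ s)
    (h2 : 85 * |3 * c - s * p2| ≤ s) (h3 : 85 * |3 * d - s * p3| ≤ s)
    (g0 : |p0| ≤ 1) (g1 : |p1| ≤ 1) (g2 : |p2| ≤ 1) (g3 : |p3| ≤ 1)
    (hx : 0 ≤ x) (hy : 0 ≤ y) (hz : 0 ≤ z) :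
    42 * |9 * X1 a b c d x y z - s ^ 2 * X1 p0 p1 p2 p3 x y z| ≤ 4 * s ^ 2 * (x + y + z) ∧
    42 * |9 * X2 a b c d x y z - s ^ 2 * X2 p0 p1 p2 p3 x y z| ≤ 4 * s ^ 2 * (x + y + z) ∧
    42 * |9 * X3 a b c d x y z - s ^ 2 * X3 p0 p1 p2 p3 x y z| ≤ 4 * s ^ 2 * (x + y + z) := by
  have k00 := prodb hs h0 h0 g0 g0
  have k11 := prodb hs h1 h1 g1 g1
  have k22 := prodb hs h2 h2 g2 g2
  have k33 := prodb hs h3 h3 g3 g3
  have k01 := prodb hs h0 h1 g0 g1
  have k02 := prodb hs h0 h2 g0 g2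
  have k03 := prodb hs h0 h3 g0 g3
  have k12 := prodb hs h1 h2 g1 g2
  have k13 := prodb hs h1 h3 g1 g3
  have k23 := prodb hs h2 h3 g2 g3
  have tri : ∀ t S : ℤ, 42 * |t| ≤ S → -S ≤ 42 * t ∧ 42 * t ≤ S := by
    intro t S h
    have h1 := neg_abs_le t
    have h2 := le_abs_self t
    constructor <;> linarith
  have mk : ∀ t S : ℤ, -S ≤ 42 * t → 42 * t ≤ S → 42 * |t| ≤ S := by
    intro t S h h'
    rcases abs_cases t with ⟨h1, _⟩ | ⟨h1, _⟩ <;> rw [h1] <;> linarith
  obtain ⟨l00, u00⟩ := tri _ _ k00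
  obtain ⟨l11, u11⟩ := tri _ _ k11
  obtain ⟨l22, u22⟩ := tri _ _ k22
  obtain ⟨l33, u33⟩ := tri _ _ k33
  obtain ⟨l01, u01⟩ := tri _ _ k01
  obtain ⟨l02, u02⟩ := tri _ _ k02
  obtain ⟨l03, u03⟩ := tri _ _ k03
  obtain ⟨l12, u12⟩ := tri _ _ k12
  obtain ⟨l13, u13⟩ := tri _ _ k13
  obtain ⟨l23, u23⟩ := tri _ _ k23
  refine ⟨?_, ?_, ?_⟩
  · exact form_close hx hy hz (mk _ _ (by linarith) (by linarith)) (mk _ _ (by linarith) (by linarith))
      (mk _ _ (by linarith) (by linarith))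
  · exact form_close hx hy hz (mk _ _ (by linarith) (by linarith)) (mk _ _ (by linarith) (by linarith))
      (mk _ _ (by linarith) (by linarith))
  · exact form_close hx hy hz (mk _ _ (by linarith) (by linarith)) (mk _ _ (by linarith) (by linarith))
      (mk _ _ (by linarith) (by linarith))

/-- The conclusion for `w = (x, y, z)` and signs `t1, t2, t3`. -/
def Good (k x y z t1 t2 t3 : ℤ) : Prop :=
  ∃ a b c d : ℤ, a ^ 2 + b ^ 2 + c ^ 2 + d ^ 2 = k ∧ Par k a b c d ∧
    0 < t1 * X1 a b c d x y z ∧ 0 < t2 * X2 a b c d x y z ∧ 0 < t3 * X3 a b c d x y z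

theorem pos_of {s F G t W : ℤ} (hs : 0 < s) (hW : 0 < W) (ht : t = 1 ∨ t = -1)
    (h : 42 * |9 * F - s ^ 2 * G| ≤ 4 * s ^ 2 * W) (hG : W ≤ 10 * (t * G)) : 0 < t * F := by
  have hs2 : 0 < s ^ 2 := by positivity
  have h1 := neg_abs_le (9 * F - s ^ 2 * G)
  have h2 := le_abs_self (9 * F - s ^ 2 * G)
  have h3 : s ^ 2 * W ≤ s ^ 2 * (10 * (t * G)) := mul_le_mul_of_nonneg_left hG hs2.le
  have h4 : 0 < s ^ 2 * W := mul_pos hs2 hW
  rcases ht with rfl | rfl
  · nlinarith
  · nlinarith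

theorem good_of_near {k p0 p1 p2 p3 x y z t1 t2 t3 : ℤ} (h : Near k p0 p1 p2 p3)
    (g0 : |p0| ≤ 1) (g1 : |p1| ≤ 1) (g2 : |p2| ≤ 1) (g3 : |p3| ≤ 1)
    (hx : 0 < x) (hy : 0 < y) (hz : 0 < z)
    (ht1 : t1 = 1 ∨ t1 = -1) (ht2 : t2 = 1 ∨ t2 = -1) (ht3 : t3 = 1 ∨ t3 = -1)
    (e1 : x + y + z ≤ 10 * (t1 * X1 p0 p1 p2 p3 x y z))
    (e2 : x + y + z ≤ 10 * (t2 * X2 p0 p1 p2 p3 x y z))
    (e3 : x + y + z ≤ 10 * (t3 * X3 p0 p1 p2 p3 x y z)) : Good k x y z t1 t2 t3 := by
  obtain ⟨a, b, c, d, s, hs, hn, hp, h0, h1, h2, h3⟩ := h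
  obtain ⟨c1, c2, c3⟩ := close hs h0 h1 h2 h3 g0 g1 g2 g3 hx.le hy.le hz.le
  exact ⟨a, b, c, d, hn, hp, pos_of hs (by linarith) ht1 c1 e1, pos_of hs (by linarith) ht2 c2 e2,
    pos_of hs (by linarith) ht3 c3 e3⟩

theorem good_sorted {k x y z t1 t2 t3 : ℤ} (hk : 10 ^ 12 ≤ k) (hodd : k % 2 = 1)
    (hx : 0 < x) (hxy : x ≤ y) (hyz : y ≤ z)
    (ht1 : t1 = 1 ∨ t1 = -1) (ht2 : t2 = 1 ∨ t2 = -1) (ht3 : t3 = 1 ∨ t3 = -1) :
    Good k x y z t1 t2 t3 := by
  have n0 := near0 k hk hodd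
  have n3 := near1 k hk hodd
  have n2 := n3.swap23
  have n1 := n2.swap12
  have hy : 0 < y := by linarith
  have hz : 0 < z := by linarith
  have o0 : |(0 : ℤ)| ≤ 1 := by norm_num
  have o1 : |(1 : ℤ)| ≤ 1 := by norm_num
  have o2 : |(-1 : ℤ)| ≤ 1 := by norm_num
  rcases ht1 with rfl | rfl <;> rcases ht2 with rfl | rfl <;> rcases ht3 with rfl | rfl
  -- + + +
  · rcases le_total (x + y + z) (10 * (2 * x + 2 * y - z)) with h | h
    · exact good_of_near n0 o0 o1 o1 o1 hx hy hz (by simp) (by simp) (by simp)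
        (by simp only [X1]; linarith) (by simp only [X2]; linarith) (by simp only [X3]; linarith)
    · exact good_of_near n1 o1 o0 o1 o1 hx hy hz (by simp) (by simp) (by simp)
        (by simp only [X1]; linarith) (by simp only [X2]; linarith) (by simp only [X3]; linarith)
  -- + + -
  · rcases le_total (x + y + z) (10 * (x + 2 * z - 2 * y)) with h | h
    · exact good_of_near n3.neg1 o1 o2 o1 o0 hx hy hz (by simp) (by simp) (by simp)
        (by simp only [X1]; linarith) (by simp only [X2]; linarith) (by simp only [X3]; linarith)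
    · exact good_of_near n2.neg0 o2 o1 o0 o1 hx hy hz (by simp) (by simp) (by simp)
        (by simp only [X1]; linarith) (by simp only [X2]; linarith) (by simp only [X3]; linarith)
  -- + - +
  · rcases le_total (x + y + z) (10 * (x + 2 * z - 2 * y)) with h | h
    · exact good_of_near n2.neg0.neg1.neg3 o2 o2 o0 o2 hx hy hz (by simp) (by simp) (by simp)
        (by simp only [X1]; linarith) (by simp only [X2]; linarith) (by simp only [X3]; linarith)
    · exact good_of_near n3 o1 o1 o1 o0 hx hy hz (by simp) (by simp) (by simp)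
        (by simp only [X1]; linarith) (by simp only [X2]; linarith) (by simp only [X3]; linarith)
  -- + - -
  · rcases le_total (x + y + z) (10 * (2 * x + 2 * y - z)) with h | h
    · exact good_of_near n1.neg0.neg2 o2 o0 o2 o1 hx hy hz (by simp) (by simp) (by simp)
        (by simp only [X1]; linarith) (by simp only [X2]; linarith) (by simp only [X3]; linarith)
    · exact good_of_near n0.neg2 o0 o1 o2 o1 hx hy hz (by simp) (by simp) (by simp)
        (by simp only [X1]; linarith) (by simp only [X2]; linarith) (by simp only [X3]; linarith)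
  -- - + +
  · rcases le_total (x + y + z) (10 * (x + 2 * z - 2 * y)) with h | h
    · exact good_of_near n1.neg0 o2 o0 o1 o1 hx hy hz (by simp) (by simp) (by simp)
        (by simp only [X1]; linarith) (by simp only [X2]; linarith) (by simp only [X3]; linarith)
    · exact good_of_near n0.neg2.neg3 o0 o1 o2 o2 hx hy hz (by simp) (by simp) (by simp)
        (by simp only [X1]; linarith) (by simp only [X2]; linarith) (by simp only [X3]; linarith)
  -- - + -
  · rcases le_total (x + y + z) (10 * (2 * x + 2 * y - z)) with h | h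
    · exact good_of_near n2.neg0.neg3 o2 o1 o0 o2 hx hy hz (by simp) (by simp) (by simp)
        (by simp only [X1]; linarith) (by simp only [X2]; linarith) (by simp only [X3]; linarith)
    · exact good_of_near n3.neg0 o2 o1 o1 o0 hx hy hz (by simp) (by simp) (by simp)
        (by simp only [X1]; linarith) (by simp only [X2]; linarith) (by simp only [X3]; linarith)
  -- - - +
  · rcases le_total (x + y + z) (10 * (2 * x + 2 * y - z)) with h | h
    · exact good_of_near n3.neg0.neg1 o2 o2 o1 o0 hx hy hz (by simp) (by simp) (by simp)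
        (by simp only [X1]; linarith) (by simp only [X2]; linarith) (by simp only [X3]; linarith)
    · exact good_of_near n2.neg0.neg1 o2 o2 o0 o1 hx hy hz (by simp) (by simp) (by simp)
        (by simp only [X1]; linarith) (by simp only [X2]; linarith) (by simp only [X3]; linarith)
  -- - - -
  · rcases le_total (x + y + z) (10 * (x + 2 * z - 2 * y)) with h | h
    · exact good_of_near n0.neg3 o0 o1 o1 o2 hx hy hz (by simp) (by simp) (by simp)
        (by simp only [X1]; linarith) (by simp only [X2]; linarith) (by simp only [X3]; linarith)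
    · exact good_of_near n1.neg2 o1 o0 o2 o1 hx hy hz (by simp) (by simp) (by simp)
        (by simp only [X1]; linarith) (by simp only [X2]; linarith) (by simp only [X3]; linarith)

theorem Good.swap12 {k x y z t1 t2 t3 : ℤ} (h : Good k x y z t1 t2 t3) :
    Good k y x z t2 t1 t3 := by
  obtain ⟨a, b, c, d, hn, hp, h1, h2, h3⟩ := h
  refine ⟨a, -c, -b, -d, by rw [← hn]; ring, ⟨fun g => ?_, fun g => ?_⟩, ?_, ?_, ?_⟩
  · have := hp.1 g
    omega
  · have := hp.2 g
    omega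
  · have : X1 a (-c) (-b) (-d) y x z = X2 a b c d x y z := by unfold X1 X2; ring
    rw [this]; exact h2
  · have : X2 a (-c) (-b) (-d) y x z = X1 a b c d x y z := by unfold X1 X2; ring
    rw [this]; exact h1
  · have : X3 a (-c) (-b) (-d) y x z = X3 a b c d x y z := by unfold X3; ring
    rw [this]; exact h3

theorem Good.swap23 {k x y z t1 t2 t3 : ℤ} (h : Good k x y z t1 t2 t3) :
    Good k x z y t1 t3 t2 := by
  obtain ⟨a, b, c, d, hn, hp, h1, h2, h3⟩ := h
  refine ⟨a, -b, -d, -c, by rw [← hn]; ring, ⟨fun g => ?_, fun g => ?_⟩, ?_, ?_, ?_⟩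
  · have := hp.1 g
    omega
  · have := hp.2 g
    omega
  · have : X1 a (-b) (-d) (-c) x z y = X1 a b c d x y z := by unfold X1; ring
    rw [this]; exact h1
  · have : X2 a (-b) (-d) (-c) x z y = X3 a b c d x y z := by unfold X2 X3; ring
    rw [this]; exact h3
  · have : X3 a (-b) (-d) (-c) x z y = X2 a b c d x y z := by unfold X2 X3; ring
    rw [this]; exact h2

theorem good_all {k x y z t1 t2 t3 : ℤ} (hk : 10 ^ 12 ≤ k) (hodd : k % 2 = 1)
    (hx : 0 < x) (hy : 0 < y) (hz : 0 < z)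
    (ht1 : t1 = 1 ∨ t1 = -1) (ht2 : t2 = 1 ∨ t2 = -1) (ht3 : t3 = 1 ∨ t3 = -1) :
    Good k x y z t1 t2 t3 := by
  rcases le_total x y with h1 | h1 <;> rcases le_total y z with h2 | h2 <;>
    rcases le_total x z with h3 | h3
  · exact good_sorted hk hodd hx h1 h2 ht1 ht2 ht3
  · exact good_sorted hk hodd hx h1 h2 ht1 ht2 ht3
  · exact (good_sorted hk hodd hx h3 h2 ht1 ht3 ht2).swap23
  · exact (good_sorted hk hodd hz h3 h1 ht3 ht1 ht2).swap12.swap23
  · exact (good_sorted hk hodd hy h1 h3 ht2 ht1 ht3).swap12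
  · exact (good_sorted hk hodd hy h2 h3 ht2 ht3 ht1).swap23.swap12
  · exact (good_sorted hk hodd hz h2 h1 ht3 ht2 ht1).swap12.swap23.swap12
  · exact (good_sorted hk hodd hz h2 h1 ht3 ht2 ht1).swap12.swap23.swap12

end H65H
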