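import Pool.Agent.Lib.H65H.NearH

/-!
# Covering, smaller threshold
-/

set_option autoImplicit false

namespace H65K

/-- First coordinate of `q w qbar`. -/
def X1 (a b c d x y z : ℤ) : ℤ :=
  (a ^ 2 + b ^ 2 - c ^ 2 - d ^ 2) * x + 2 * (b * c - a * d) * y + 2 * (b * d + a * c) * z

/-- Second coordinate of `q w qbar`. -/
def X2 (a b c d x y z : ℤ) : ℤ :=
  2 * (b * c + a * d) * x + (a ^ 2 - b ^ 2 + c ^ 2 - d ^ 2) * y + 2 * (c * d - a * b) * z

/-- Third coordinate of `q w qbar`. -/
def X3 (a b c d x y z : ℤ) : ℤ :=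
  2 * (b * d - a * c) * x + 2 * (c * d + a * b) * y + (a ^ 2 - b ^ 2 - c ^ 2 + d ^ 2) * z

theorem X_norm (a b c d x y z : ℤ) :
    X1 a b c d x y z ^ 2 + X2 a b c d x y z ^ 2 + X3 a b c d x y z ^ 2 =
      (a ^ 2 + b ^ 2 + c ^ 2 + d ^ 2) ^ 2 * (x ^ 2 + y ^ 2 + z ^ 2) := by
  unfold X1 X2 X3
  ring

/-- A rotation at a small angle keeps the sign of a coordinate which is not too small. -/
theorem keep {s a b c x y z M : ℤ} (hM : 0 < M) (hx : M ≤ 12 * x) (hx2 : x ≤ M) (hy : |y| ≤ M)
    (hz : |z| ≤ M) (hW : 1200 * (a ^ 2 + b ^ 2 + c ^ 2) < s ^ 2) : 0 < X1 s a b c x y z := by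
  have bound : ∀ {p P t : ℤ}, |p| ≤ P → |t| ≤ M → -(P * M) ≤ p * t := by
    intro p P t hp ht
    have h1 : |p * t| ≤ P * M := by
      rw [abs_mul]
      exact mul_le_mul hp ht (abs_nonneg _) ((abs_nonneg _).trans hp)
    exact (abs_le.mp h1).1
  have h1 : |96 * (a * b - s * c)| ≤ 48 * a ^ 2 + 48 * b ^ 2 + s ^ 2 + 2304 * c ^ 2 := by
    rw [abs_le]
    constructor <;> nlinarith [sq_nonneg (a + b), sq_nonneg (a - b), sq_nonneg (s + 48 * c), sq_nonneg (s - 48 * c)]
  have h2 : |96 * (a * c + s * b)| ≤ 48 * a ^ 2 + 48 * c ^ 2 + s ^ 2 + 2304 * b ^ 2 := by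
    rw [abs_le]
    constructor <;> nlinarith [sq_nonneg (a + c), sq_nonneg (a - c), sq_nonneg (s + 48 * b), sq_nonneg (s - 48 * b)]
  have e1 := bound h1 hy
  have e2 := bound h2 hz
  have e3 : (s ^ 2 + a ^ 2) * M ≤ (s ^ 2 + a ^ 2) * (12 * x) := mul_le_mul_of_nonneg_left hx (by positivity)
  have e4 : (b ^ 2 + c ^ 2) * x ≤ (b ^ 2 + c ^ 2) * M := mul_le_mul_of_nonneg_left hx2 (by positivity)
  have e5 : 1200 * (a ^ 2 + b ^ 2 + c ^ 2) * M < s ^ 2 * M := mul_lt_mul_of_pos_right hW hM
  have e6 : 0 ≤ a ^ 2 * M := by positivity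
  have e7 : 0 ≤ b ^ 2 * M := by positivity
  have e8 : 0 ≤ c ^ 2 * M := by positivity
  have e9 : 0 < 48 * X1 s a b c x y z := by
    unfold X1
    nlinarith [e1, e2, e3, e4, e5, e6, e7, e8]
  omega

theorem keep1 {s a b c x y z t M : ℤ} (hM : 0 < M) (ht : t = 1 ∨ t = -1) (hx : M ≤ 12 * (t * x))
    (hx2 : t * x ≤ M) (hy : |y| ≤ M) (hz : |z| ≤ M)
    (hW : 1200 * (a ^ 2 + b ^ 2 + c ^ 2) < s ^ 2) : 0 < t * X1 s a b c x y z := by
  rcases ht with rfl | rfl
  · rw [one_mul]
    exact keep hM (by linarith) (by linarith) hy hz hW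
  · have h := keep (x := -x) (y := -y) (z := -z) hM (by linarith) (by linarith)
      (by rwa [abs_neg]) (by rwa [abs_neg]) hW
    have e : X1 s a b c (-x) (-y) (-z) = -1 * X1 s a b c x y z := by unfold X1; ring
    rwa [e] at h

/-- The conclusion for `w = (x, y, z)` and signs `t1, t2, t3`. -/
def Good (k x y z t1 t2 t3 : ℤ) : Prop :=
  ∃ a b c d : ℤ, a ^ 2 + b ^ 2 + c ^ 2 + d ^ 2 = k ∧ Par k a b c d ∧
    0 < t1 * X1 a b c d x y z ∧ 0 < t2 * X2 a b c d x y z ∧ 0 < t3 * X3 a b c d x y z

theorem abs_le_of {t x M : ℤ} (ht : t = 1 ∨ t = -1) (hM : 0 < M) (h1 : M ≤ 12 * (t * x))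
    (h2 : t * x ≤ M) : |x| ≤ M := by
  rw [abs_le]
  rcases ht with rfl | rfl
  · constructor <;> linarith
  · constructor <;> linarith

theorem good_of_near {k p0 p1 p2 p3 x y z t1 t2 t3 : ℤ} (M : ℤ) (h : Near k p0 p1 p2 p3)
    (hp : p0 ^ 2 + p1 ^ 2 + p2 ^ 2 + p3 ^ 2 = 3) (hM : 0 < M)
    (ht1 : t1 = 1 ∨ t1 = -1) (ht2 : t2 = 1 ∨ t2 = -1) (ht3 : t3 = 1 ∨ t3 = -1)
    (e1 : M ≤ 12 * (t1 * X1 p0 p1 p2 p3 x y z)) (f1 : t1 * X1 p0 p1 p2 p3 x y z ≤ M)
    (e2 : M ≤ 12 * (t2 * X2 p0 p1 p2 p3 x y z)) (f2 : t2 * X2 p0 p1 p2 p3 x y z ≤ M)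
    (e3 : M ≤ 12 * (t3 * X3 p0 p1 p2 p3 x y z)) (f3 : t3 * X3 p0 p1 p2 p3 x y z ≤ M) :
    Good k x y z t1 t2 t3 := by
  obtain ⟨a, b, c, d, hn, hpar, h0⟩ := h
  obtain ⟨s, hs⟩ : ∃ s, s = a * p0 + b * p1 + c * p2 + d * p3 := ⟨_, rfl⟩
  obtain ⟨u, hu⟩ : ∃ u, u = -a * p1 + b * p0 - c * p3 + d * p2 := ⟨_, rfl⟩
  obtain ⟨v, hv⟩ : ∃ v, v = -a * p2 + b * p3 + c * p0 - d * p1 := ⟨_, rfl⟩
  obtain ⟨w, hw⟩ : ∃ w, w = -a * p3 - b * p2 + c * p1 + d * p0 := ⟨_, rfl⟩
  have hnorm : s ^ 2 + u ^ 2 + v ^ 2 + w ^ 2 = 3 * k := by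
    rw [← hn, ← hp, hs, hu, hv, hw]
    ring
  have hW : 1200 * (u ^ 2 + v ^ 2 + w ^ 2) < s ^ 2 := by
    rw [← hs] at h0
    linarith
  obtain ⟨N, hN⟩ : ∃ N, N = p0 ^ 2 + p1 ^ 2 + p2 ^ 2 + p3 ^ 2 := ⟨_, rfl⟩
  have g1 : X1 s u v w (X1 p0 p1 p2 p3 x y z) (X2 p0 p1 p2 p3 x y z) (X3 p0 p1 p2 p3 x y z) =
      9 * X1 a b c d x y z := by
    have : X1 s u v w (X1 p0 p1 p2 p3 x y z) (X2 p0 p1 p2 p3 x y z) (X3 p0 p1 p2 p3 x y z) =
        (p0 ^ 2 + p1 ^ 2 + p2 ^ 2 + p3 ^ 2) ^ 2 * X1 a b c d x y z := by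
      rw [hs, hu, hv, hw]
      unfold X1 X2 X3
      ring
    rw [this, hp]
    norm_num
  have g2 : X2 s u v w (X1 p0 p1 p2 p3 x y z) (X2 p0 p1 p2 p3 x y z) (X3 p0 p1 p2 p3 x y z) =
      9 * X2 a b c d x y z := by
    have : X2 s u v w (X1 p0 p1 p2 p3 x y z) (X2 p0 p1 p2 p3 x y z) (X3 p0 p1 p2 p3 x y z) =
        (p0 ^ 2 + p1 ^ 2 + p2 ^ 2 + p3 ^ 2) ^ 2 * X2 a b c d x y z := by
      rw [hs, hu, hv, hw]
      unfold X1 X2 X3
      ring
    rw [this, hp]
    norm_num
  have g3 : X3 s u v w (X1 p0 p1 p2 p3 x y z) (X2 p0 p1 p2 p3 x y z) (X3 p0 p1 p2 p3 x y z) =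
      9 * X3 a b c d x y z := by
    have : X3 s u v w (X1 p0 p1 p2 p3 x y z) (X2 p0 p1 p2 p3 x y z) (X3 p0 p1 p2 p3 x y z) =
        (p0 ^ 2 + p1 ^ 2 + p2 ^ 2 + p3 ^ 2) ^ 2 * X3 a b c d x y z := by
      rw [hs, hu, hv, hw]
      unfold X1 X2 X3
      ring
    rw [this, hp]
    norm_num
  generalize X1 p0 p1 p2 p3 x y z = U at *
  generalize X2 p0 p1 p2 p3 x y z = V at *
  generalize X3 p0 p1 p2 p3 x y z = W at *
  have aU := abs_le_of ht1 hM e1 f1
  have aV := abs_le_of ht2 hM e2 f2
  have aW := abs_le_of ht3 hM e3 f3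
  refine ⟨a, b, c, d, hn, hpar, ?_, ?_, ?_⟩
  · have := keep1 hM ht1 e1 f1 aV aW hW
    rw [g1] at this
    linarith
  · have e : X1 s v w u V W U = X2 s u v w U V W := by unfold X1 X2; ring
    have := keep1 (s := s) (a := v) (b := w) (c := u) hM ht2 e2 f2 aW aU (by linarith)
    rw [e, g2] at this
    linarith
  · have e : X1 s w u v W U V = X3 s u v w U V W := by unfold X1 X3; ring
    have := keep1 (s := s) (a := w) (b := u) (c := v) hM ht3 e3 f3 aU aV (by linarith)
    rw [e, g3] at this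
    linarith

theorem good_sorted {k x y z t1 t2 t3 : ℤ} (hk : 200000000 ≤ k) (hodd : k % 2 = 1)
    (hx : 0 < x) (hxy : x ≤ y) (hyz : y ≤ z)
    (ht1 : t1 = 1 ∨ t1 = -1) (ht2 : t2 = 1 ∨ t2 = -1) (ht3 : t3 = 1 ∨ t3 = -1) :
    Good k x y z t1 t2 t3 := by
  have n0 := near0 k hk hodd
  have n3 := near1 k hk hodd
  have n2 := n3.swap23
  have n1 := n2.swap12
  rcases ht1 with rfl | rfl <;> rcases ht2 with rfl | rfl <;> rcases ht3 with rfl | rfl
  -- + + +
  · rcases le_or_gt (14 * z) (25 * x + 22 * y) with h | h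
    · exact good_of_near (-x + 2 * y + 2 * z) n0 (by norm_num) (by linarith) (by simp) (by simp) (by simp)
        (by simp only [X1]; linarith) (by simp only [X1]; linarith)
        (by simp only [X2]; linarith) (by simp only [X2]; linarith)
        (by simp only [X3]; linarith) (by simp only [X3]; linarith)
    · exact good_of_near (2 * x + y + 2 * z) n1 (by norm_num) (by linarith) (by simp) (by simp) (by simp)
        (by simp only [X1]; linarith) (by simp only [X1]; linarith)
        (by simp only [X2]; linarith) (by simp only [X2]; linarith)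
        (by simp only [X3]; linarith) (by simp only [X3]; linarith)
  -- + + -
  · rcases le_or_gt (25 * y) (10 * x + 22 * z) with h | h
    · exact good_of_near (2 * x + y + 2 * z) n3.neg1 (by norm_num) (by linarith) (by simp) (by simp) (by simp)
        (by simp only [X1]; linarith) (by simp only [X1]; linarith)
        (by simp only [X2]; linarith) (by simp only [X2]; linarith)
        (by simp only [X3]; linarith) (by simp only [X3]; linarith)
    · exact good_of_near (x + 2 * y + 2 * z) n2.neg0 (by norm_num) (by linarith) (by simp) (by simp) (by simp)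
        (by simp only [X1]; linarith) (by simp only [X1]; linarith)
        (by simp only [X2]; linarith) (by simp only [X2]; linarith)
        (by simp only [X3]; linarith) (by simp only [X3]; linarith)
  -- + - +
  · rcases le_or_gt (25 * y) (10 * x + 22 * z) with h | h
    · exact good_of_near (2 * x + y + 2 * z) n2.neg0.neg1.neg3 (by norm_num) (by linarith) (by simp) (by simp) (by simp)
        (by simp only [X1]; linarith) (by simp only [X1]; linarith)
        (by simp only [X2]; linarith) (by simp only [X2]; linarith)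
        (by simp only [X3]; linarith) (by simp only [X3]; linarith)
    · exact good_of_near (x + 2 * y + 2 * z) n3 (by norm_num) (by linarith) (by simp) (by simp) (by simp)
        (by simp only [X1]; linarith) (by simp only [X1]; linarith)
        (by simp only [X2]; linarith) (by simp only [X2]; linarith)
        (by simp only [X3]; linarith) (by simp only [X3]; linarith)
  -- + - -
  · rcases le_or_gt (14 * z) (25 * x + 22 * y) with h | h
    · exact good_of_near (-x + 2 * y + 2 * z) n1.neg0.neg2 (by norm_num) (by linarith) (by simp) (by simp) (by simp)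
        (by simp only [X1]; linarith) (by simp only [X1]; linarith)
        (by simp only [X2]; linarith) (by simp only [X2]; linarith)
        (by simp only [X3]; linarith) (by simp only [X3]; linarith)
    · exact good_of_near (2 * x + y + 2 * z) n0.neg2 (by norm_num) (by linarith) (by simp) (by simp) (by simp)
        (by simp only [X1]; linarith) (by simp only [X1]; linarith)
        (by simp only [X2]; linarith) (by simp only [X2]; linarith)
        (by simp only [X3]; linarith) (by simp only [X3]; linarith)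
  -- - + +
  · rcases le_or_gt (25 * y) (10 * x + 22 * z) with h | h
    · exact good_of_near (2 * x + y + 2 * z) n1.neg0 (by norm_num) (by linarith) (by simp) (by simp) (by simp)
        (by simp only [X1]; linarith) (by simp only [X1]; linarith)
        (by simp only [X2]; linarith) (by simp only [X2]; linarith)
        (by simp only [X3]; linarith) (by simp only [X3]; linarith)
    · exact good_of_near (x + 2 * y + 2 * z) n0.neg2.neg3 (by norm_num) (by linarith) (by simp) (by simp) (by simp)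
        (by simp only [X1]; linarith) (by simp only [X1]; linarith)
        (by simp only [X2]; linarith) (by simp only [X2]; linarith)
        (by simp only [X3]; linarith) (by simp only [X3]; linarith)
  -- - + -
  · rcases le_or_gt (14 * z) (25 * x + 22 * y) with h | h
    · exact good_of_near (-x + 2 * y + 2 * z) n2.neg0.neg3 (by norm_num) (by linarith) (by simp) (by simp) (by simp)
        (by simp only [X1]; linarith) (by simp only [X1]; linarith)
        (by simp only [X2]; linarith) (by simp only [X2]; linarith)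
        (by simp only [X3]; linarith) (by simp only [X3]; linarith)
    · exact good_of_near (2 * x + y + 2 * z) n3.neg0 (by norm_num) (by linarith) (by simp) (by simp) (by simp)
        (by simp only [X1]; linarith) (by simp only [X1]; linarith)
        (by simp only [X2]; linarith) (by simp only [X2]; linarith)
        (by simp only [X3]; linarith) (by simp only [X3]; linarith)
  -- - - +
  · rcases le_or_gt (14 * z) (25 * x + 22 * y) with h | h
    · exact good_of_near (-x + 2 * y + 2 * z) n3.neg0.neg1 (by norm_num) (by linarith) (by simp) (by simp) (by simp)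
        (by simp only [X1]; linarith) (by simp only [X1]; linarith)
        (by simp only [X2]; linarith) (by simp only [X2]; linarith)
        (by simp only [X3]; linarith) (by simp only [X3]; linarith)
    · exact good_of_near (2 * x + y + 2 * z) n2.neg0.neg1 (by norm_num) (by linarith) (by simp) (by simp) (by simp)
        (by simp only [X1]; linarith) (by simp only [X1]; linarith)
        (by simp only [X2]; linarith) (by simp only [X2]; linarith)
        (by simp only [X3]; linarith) (by simp only [X3]; linarith)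
  -- - - -
  · rcases le_or_gt (25 * y) (10 * x + 22 * z) with h | h
    · exact good_of_near (2 * x + y + 2 * z) n0.neg3 (by norm_num) (by linarith) (by simp) (by simp) (by simp)
        (by simp only [X1]; linarith) (by simp only [X1]; linarith)
        (by simp only [X2]; linarith) (by simp only [X2]; linarith)
        (by simp only [X3]; linarith) (by simp only [X3]; linarith)
    · exact good_of_near (x + 2 * y + 2 * z) n1.neg2 (by norm_num) (by linarith) (by simp) (by simp) (by simp)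
        (by simp only [X1]; linarith) (by simp only [X1]; linarith)
        (by simp only [X2]; linarith) (by simp only [X2]; linarith)
        (by simp only [X3]; linarith) (by simp only [X3]; linarith)

theorem Good.swap12 {k x y z t1 t2 t3 : ℤ} (h : Good k x y z t1 t2 t3) :
    Good k y x z t2 t1 t3 := by
  obtain ⟨a, b, c, d, hn, hp, h1, h2, h3⟩ := h
  refine ⟨a, -c, -b, -d, by rw [← hn]; ring, ⟨fun g => ?_, fun g => ?_⟩, ?_, ?_, ?_⟩
  · have := hp.1 g
    omega
  · have := hp.2 g
    omega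
  · have : X1 a (-c) (-b) (-d) y x z = X2 a b c d x y z := by unfold X1 X2; ring
    rw [this]; exact h2
  · have : X2 a (-c) (-b) (-d) y x z = X1 a b c d x y z := by unfold X1 X2; ring
    rw [this]; exact h1
  · have : X3 a (-c) (-b) (-d) y x z = X3 a b c d x y z := by unfold X3; ring
    rw [this]; exact h3

theorem Good.swap23 {k x y z t1 t2 t3 : ℤ} (h : Good k x y z t1 t2 t3) :
    Good k x z y t1 t3 t2 := by
  obtain ⟨a, b, c, d, hn, hp, h1, h2, h3⟩ := h
  refine ⟨a, -b, -d, -c, by rw [← hn]; ring, ⟨fun g => ?_, fun g => ?_⟩, ?_, ?_, ?_⟩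
  · have := hp.1 g
    omega
  · have := hp.2 g
    omega
  · have : X1 a (-b) (-d) (-c) x z y = X1 a b c d x y z := by unfold X1; ring
    rw [this]; exact h1
  · have : X2 a (-b) (-d) (-c) x z y = X3 a b c d x y z := by unfold X2 X3; ring
    rw [this]; exact h3
  · have : X3 a (-b) (-d) (-c) x z y = X2 a b c d x y z := by unfold X2 X3; ring
    rw [this]; exact h2

theorem good_all {k x y z t1 t2 t3 : ℤ} (hk : 200000000 ≤ k) (hodd : k % 2 = 1)
    (hx : 0 < x) (hy : 0 < y) (hz : 0 < z)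
    (ht1 : t1 = 1 ∨ t1 = -1) (ht2 : t2 = 1 ∨ t2 = -1) (ht3 : t3 = 1 ∨ t3 = -1) :
    Good k x y z t1 t2 t3 := by
  rcases le_total x y with h1 | h1 <;> rcases le_total y z with h2 | h2 <;>
    rcases le_total x z with h3 | h3
  · exact good_sorted hk hodd hx h1 h2 ht1 ht2 ht3
  · exact good_sorted hk hodd hx h1 h2 ht1 ht2 ht3
  · exact (good_sorted hk hodd hx h3 h2 ht1 ht3 ht2).swap23
  · exact (good_sorted hk hodd hz h3 h1 ht3 ht1 ht2).swap12.swap23
  · exact (good_sorted hk hodd hy h1 h3 ht2 ht1 ht3).swap12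
  · exact (good_sorted hk hodd hy h2 h3 ht2 ht3 ht1).swap23.swap12
  · exact (good_sorted hk hodd hz h2 h1 ht3 ht2 ht1).swap12.swap23.swap12
  · exact (good_sorted hk hodd hz h2 h1 ht3 ht2 ht1).swap12.swap23.swap12

end H65K
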