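import Pool.Agent.Lib.H65H.NearP
import Pool.Agent.Lib.H65H.Cover

/-!
# Covering, conditions modulo 3
-/

set_option autoImplicit false

namespace H65P

open H65H

/-- A linear form with coefficients close to `s ^ 2` times those of another one. -/
theorem form_close {S A B C A' B' C' : ℤ} (x y z : ℤ)
    (hA : 42 * |9 * A - S * A'| ≤ 4 * S) (hB : 42 * |9 * B - S * B'| ≤ 4 * S)
    (hC : 42 * |9 * C - S * C'| ≤ 4 * S) :
    42 * |9 * (A * x + B * y + C * z) - S * (A' * x + B' * y + C' * z)| ≤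
      4 * S * (|x| + |y| + |z|) := by
  have e : 9 * (A * x + B * y + C * z) - S * (A' * x + B' * y + C' * z) =
      (9 * A - S * A') * x + (9 * B - S * B') * y + (9 * C - S * C') * z := by ring
  have h1 : |9 * (A * x + B * y + C * z) - S * (A' * x + B' * y + C' * z)| ≤
      |9 * A - S * A'| * |x| + |9 * B - S * B'| * |y| + |9 * C - S * C'| * |z| := by
    rw [e]
    refine (abs_add_le _ _).trans (add_le_add ((abs_add_le _ _).trans (add_le_add ?_ ?_)) ?_)
    · rw [abs_mul]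
    · rw [abs_mul]
    · rw [abs_mul]
  have h2 := mul_le_mul_of_nonneg_right hA (abs_nonneg x)
  have h3 := mul_le_mul_of_nonneg_right hB (abs_nonneg y)
  have h4 := mul_le_mul_of_nonneg_right hC (abs_nonneg z)
  linarith

/-- The three coordinates are close to `s ^ 2 / 9` times those of the model. -/
theorem close {s a b c d p0 p1 p2 p3 : ℤ} (x y z : ℤ) (hs : 0 < s)
    (h0 : 85 * |3 * a - s * p0| ≤ s) (h1 : 85 * |3 * b - s * p1| ≤ s)
    (h2 : 85 * |3 * c - s * p2| ≤ s) (h3 : 85 * |3 * d - s * p3| ≤ s)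
    (g0 : |p0| ≤ 1) (g1 : |p1| ≤ 1) (g2 : |p2| ≤ 1) (g3 : |p3| ≤ 1) :
    42 * |9 * X1 a b c d x y z - s ^ 2 * X1 p0 p1 p2 p3 x y z| ≤ 4 * s ^ 2 * (|x| + |y| + |z|) ∧
    42 * |9 * X2 a b c d x y z - s ^ 2 * X2 p0 p1 p2 p3 x y z| ≤ 4 * s ^ 2 * (|x| + |y| + |z|) ∧
    42 * |9 * X3 a b c d x y z - s ^ 2 * X3 p0 p1 p2 p3 x y z| ≤ 4 * s ^ 2 * (|x| + |y| + |z|) := by
  have k00 := prodb hs h0 h0 g0 g0
  have k11 := prodb hs h1 h1 g1 g1
  have k22 := prodb hs h2 h2 g2 g2
  have k33 := prodb hs h3 h3 g3 g3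
  have k01 := prodb hs h0 h1 g0 g1
  have k02 := prodb hs h0 h2 g0 g2
  have k03 := prodb hs h0 h3 g0 g3
  have k12 := prodb hs h1 h2 g1 g2
  have k13 := prodb hs h1 h3 g1 g3
  have k23 := prodb hs h2 h3 g2 g3
  have tri : ∀ t S : ℤ, 42 * |t| ≤ S → -S ≤ 42 * t ∧ 42 * t ≤ S := by
    intro t S h
    have h1 := neg_abs_le t
    have h2 := le_abs_self t
    constructor <;> linarith
  have mk : ∀ t S : ℤ, -S ≤ 42 * t → 42 * t ≤ S → 42 * |t| ≤ S := by
    intro t S h h'
    rcases abs_cases t with ⟨h1, _⟩ | ⟨h1, _⟩ <;> rw [h1] <;> linarith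
  obtain ⟨l00, u00⟩ := tri _ _ k00
  obtain ⟨l11, u11⟩ := tri _ _ k11
  obtain ⟨l22, u22⟩ := tri _ _ k22
  obtain ⟨l33, u33⟩ := tri _ _ k33
  obtain ⟨l01, u01⟩ := tri _ _ k01
  obtain ⟨l02, u02⟩ := tri _ _ k02
  obtain ⟨l03, u03⟩ := tri _ _ k03
  obtain ⟨l12, u12⟩ := tri _ _ k12
  obtain ⟨l13, u13⟩ := tri _ _ k13
  obtain ⟨l23, u23⟩ := tri _ _ k23
  refine ⟨?_, ?_, ?_⟩
  · exact form_close x y z (mk _ _ (by linarith) (by linarith)) (mk _ _ (by linarith) (by linarith))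
      (mk _ _ (by linarith) (by linarith))
  · exact form_close x y z (mk _ _ (by linarith) (by linarith)) (mk _ _ (by linarith) (by linarith))
      (mk _ _ (by linarith) (by linarith))
  · exact form_close x y z (mk _ _ (by linarith) (by linarith)) (mk _ _ (by linarith) (by linarith))
      (mk _ _ (by linarith) (by linarith))

/-- The conclusion for the vector `(x, y, z)`. -/
def GoodP (k x y z : ℤ) : Prop :=
  ∃ a b c d : ℤ, a ^ 2 + b ^ 2 + c ^ 2 + d ^ 2 = k ∧ a % 3 = 0 ∧ (b + c + d) % 3 = 0 ∧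
    0 < X1 a b c d x y z ∧ 0 < X2 a b c d x y z ∧ 0 < X3 a b c d x y z

theorem pos_of {s F G W : ℤ} (hs : 0 < s) (hW : 0 < W)
    (h : 42 * |9 * F - s ^ 2 * G| ≤ 4 * s ^ 2 * W) (hG : W ≤ 10 * G) : 0 < F := by
  have hs2 : 0 < s ^ 2 := by positivity
  have h1 := neg_abs_le (9 * F - s ^ 2 * G)
  have h3 : s ^ 2 * W ≤ s ^ 2 * (10 * G) := mul_le_mul_of_nonneg_left hG hs2.le
  have h4 : 0 < s ^ 2 * W := mul_pos hs2 hW
  nlinarith

theorem goodP_of_near {k p0 p1 p2 p3 x y z : ℤ} (h : NearP k p0 p1 p2 p3)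
    (g0 : |p0| ≤ 1) (g1 : |p1| ≤ 1) (g2 : |p2| ≤ 1) (g3 : |p3| ≤ 1)
    (hx : 0 < |x| + |y| + |z|)
    (e1 : |x| + |y| + |z| ≤ 10 * X1 p0 p1 p2 p3 x y z)
    (e2 : |x| + |y| + |z| ≤ 10 * X2 p0 p1 p2 p3 x y z)
    (e3 : |x| + |y| + |z| ≤ 10 * X3 p0 p1 p2 p3 x y z) : GoodP k x y z := by
  obtain ⟨a, b, c, d, s, hs, hn, ha, hb, h0, h1, h2, h3⟩ := h
  obtain ⟨c1, c2, c3⟩ := close x y z hs h0 h1 h2 h3 g0 g1 g2 g3
  exact ⟨a, b, c, d, hn, ha, hb, pos_of hs hx c1 e1, pos_of hs hx c2 e2, pos_of hs hx c3 e3⟩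

theorem goodP_sorted {k x y z t1 t2 t3 : ℤ} (hk : 10 ^ 12 ≤ k) (h3 : k % 3 = 2)
    (h4 : k % 2 = 1 ∨ k % 4 = 2) (hx : 0 < x) (hxy : x ≤ y) (hyz : y ≤ z)
    (ht1 : t1 = 1 ∨ t1 = -1) (ht2 : t2 = 1 ∨ t2 = -1) (ht3 : t3 = 1 ∨ t3 = -1) :
    GoodP k (t1 * x) (t2 * y) (t3 * z) := by
  have n1 := nearP1 k hk h3 h4
  have n2 := nearP2 k hk h3 h4
  have n3 := nearP3 k hk h3 h4
  have n4 := nearP4 k hk h3 h4
  have hy : 0 < y := by linarith
  have hz : 0 < z := by linarith
  have o0 : |(0 : ℤ)| ≤ 1 := by norm_num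
  have o1 : |(1 : ℤ)| ≤ 1 := by norm_num
  have o2 : |(-1 : ℤ)| ≤ 1 := by norm_num
  have a1 : ∀ w : ℤ, 0 < w → |1 * w| = w := fun w hw => by rw [one_mul, abs_of_pos hw]
  have a2 : ∀ w : ℤ, 0 < w → |-1 * w| = w := fun w hw => by
    rw [neg_one_mul, abs_neg, abs_of_pos hw]
  rcases ht1 with rfl | rfl <;> rcases ht2 with rfl | rfl <;> rcases ht3 with rfl | rfl
  -- + + +
  · have e : |1 * x| + |1 * y| + |1 * z| = x + y + z := by rw [a1 x hx, a1 y hy, a1 z hz]
    rcases le_total (x + y + z) (10 * (2 * x + 2 * y - z)) with h | h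
    · exact goodP_of_near n1 o0 o1 o1 o1 (by rw [e]; linarith)
        (by rw [e]; simp only [X1]; linarith) (by rw [e]; simp only [X2]; linarith)
        (by rw [e]; simp only [X3]; linarith)
    · exact goodP_of_near n3.swap23.swap12 o1 o0 o1 o1 (by rw [e]; linarith)
        (by rw [e]; simp only [X1]; linarith) (by rw [e]; simp only [X2]; linarith)
        (by rw [e]; simp only [X3]; linarith)
  -- + + -
  · have e : |1 * x| + |1 * y| + |-1 * z| = x + y + z := by rw [a1 x hx, a1 y hy, a2 z hz]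
    rcases le_total (x + y + z) (10 * (x + 2 * z - 2 * y)) with h | h
    · exact goodP_of_near n4 o1 o1 o2 o0 (by rw [e]; linarith)
        (by rw [e]; simp only [X1]; linarith) (by rw [e]; simp only [X2]; linarith)
        (by rw [e]; simp only [X3]; linarith)
    · exact goodP_of_near n4.swap23 o1 o1 o0 o2 (by rw [e]; linarith)
        (by rw [e]; simp only [X1]; linarith) (by rw [e]; simp only [X2]; linarith)
        (by rw [e]; simp only [X3]; linarith)
  -- + - +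
  · have e : |1 * x| + |-1 * y| + |1 * z| = x + y + z := by rw [a1 x hx, a2 y hy, a1 z hz]
    rcases le_total (x + y + z) (10 * (x + 2 * z - 2 * y)) with h | h
    · exact goodP_of_near n3.swap23.neg0 o2 o1 o0 o1 (by rw [e]; linarith)
        (by rw [e]; simp only [X1]; linarith) (by rw [e]; simp only [X2]; linarith)
        (by rw [e]; simp only [X3]; linarith)
    · exact goodP_of_near n4.swap12 o1 o2 o1 o0 (by rw [e]; linarith)
        (by rw [e]; simp only [X1]; linarith) (by rw [e]; simp only [X2]; linarith)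
        (by rw [e]; simp only [X3]; linarith)
  -- + - -
  · have e : |1 * x| + |-1 * y| + |-1 * z| = x + y + z := by rw [a1 x hx, a2 y hy, a2 z hz]
    rcases le_total (x + y + z) (10 * (2 * x + 2 * y - z)) with h | h
    · exact goodP_of_near n4.swap12.swap23.swap12 o1 o0 o2 o1 (by rw [e]; linarith)
        (by rw [e]; simp only [X1]; linarith) (by rw [e]; simp only [X2]; linarith)
        (by rw [e]; simp only [X3]; linarith)
    · exact goodP_of_near n2 o0 o1 o1 o2 (by rw [e]; linarith)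
        (by rw [e]; simp only [X1]; linarith) (by rw [e]; simp only [X2]; linarith)
        (by rw [e]; simp only [X3]; linarith)
  -- - + +
  · have e : |-1 * x| + |1 * y| + |1 * z| = x + y + z := by rw [a2 x hx, a1 y hy, a1 z hz]
    rcases le_total (x + y + z) (10 * (x + 2 * z - 2 * y)) with h | h
    · exact goodP_of_near n3.swap23.swap12 o1 o0 o1 o1 (by rw [e]; linarith)
        (by rw [e]; simp only [X1]; linarith) (by rw [e]; simp only [X2]; linarith)
        (by rw [e]; simp only [X3]; linarith)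
    · exact goodP_of_near n1 o0 o1 o1 o1 (by rw [e]; linarith)
        (by rw [e]; simp only [X1]; linarith) (by rw [e]; simp only [X2]; linarith)
        (by rw [e]; simp only [X3]; linarith)
  -- - + -
  · have e : |-1 * x| + |1 * y| + |-1 * z| = x + y + z := by rw [a2 x hx, a1 y hy, a2 z hz]
    rcases le_total (x + y + z) (10 * (2 * x + 2 * y - z)) with h | h
    · exact goodP_of_near n4.swap23 o1 o1 o0 o2 (by rw [e]; linarith)
        (by rw [e]; simp only [X1]; linarith) (by rw [e]; simp only [X2]; linarith)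
        (by rw [e]; simp only [X3]; linarith)
    · exact goodP_of_near n4 o1 o1 o2 o0 (by rw [e]; linarith)
        (by rw [e]; simp only [X1]; linarith) (by rw [e]; simp only [X2]; linarith)
        (by rw [e]; simp only [X3]; linarith)
  -- - - +
  · have e : |-1 * x| + |-1 * y| + |1 * z| = x + y + z := by rw [a2 x hx, a2 y hy, a1 z hz]
    rcases le_total (x + y + z) (10 * (2 * x + 2 * y - z)) with h | h
    · exact goodP_of_near n4.swap12 o1 o2 o1 o0 (by rw [e]; linarith)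
        (by rw [e]; simp only [X1]; linarith) (by rw [e]; simp only [X2]; linarith)
        (by rw [e]; simp only [X3]; linarith)
    · exact goodP_of_near n3.swap23.neg0 o2 o1 o0 o1 (by rw [e]; linarith)
        (by rw [e]; simp only [X1]; linarith) (by rw [e]; simp only [X2]; linarith)
        (by rw [e]; simp only [X3]; linarith)
  -- - - -
  · have e : |-1 * x| + |-1 * y| + |-1 * z| = x + y + z := by rw [a2 x hx, a2 y hy, a2 z hz]
    rcases le_total (x + y + z) (10 * (x + 2 * z - 2 * y)) with h | h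
    · exact goodP_of_near n2 o0 o1 o1 o2 (by rw [e]; linarith)
        (by rw [e]; simp only [X1]; linarith) (by rw [e]; simp only [X2]; linarith)
        (by rw [e]; simp only [X3]; linarith)
    · exact goodP_of_near n4.swap12.swap23.swap12 o1 o0 o2 o1 (by rw [e]; linarith)
        (by rw [e]; simp only [X1]; linarith) (by rw [e]; simp only [X2]; linarith)
        (by rw [e]; simp only [X3]; linarith)

theorem GoodP.swap12 {k x y z : ℤ} (h : GoodP k x y z) : GoodP k y x z := by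
  obtain ⟨a, b, c, d, hn, ha, hb, h1, h2, h3⟩ := h
  refine ⟨a, -c, -b, -d, by rw [← hn]; ring, ha, by omega, ?_, ?_, ?_⟩
  · have : X1 a (-c) (-b) (-d) y x z = X2 a b c d x y z := by unfold X1 X2; ring
    rw [this]; exact h2
  · have : X2 a (-c) (-b) (-d) y x z = X1 a b c d x y z := by unfold X1 X2; ring
    rw [this]; exact h1
  · have : X3 a (-c) (-b) (-d) y x z = X3 a b c d x y z := by unfold X3; ring
    rw [this]; exact h3

theorem GoodP.swap23 {k x y z : ℤ} (h : GoodP k x y z) : GoodP k x z y := by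
  obtain ⟨a, b, c, d, hn, ha, hb, h1, h2, h3⟩ := h
  refine ⟨a, -b, -d, -c, by rw [← hn]; ring, ha, by omega, ?_, ?_, ?_⟩
  · have : X1 a (-b) (-d) (-c) x z y = X1 a b c d x y z := by unfold X1; ring
    rw [this]; exact h1
  · have : X2 a (-b) (-d) (-c) x z y = X3 a b c d x y z := by unfold X2 X3; ring
    rw [this]; exact h3
  · have : X3 a (-b) (-d) (-c) x z y = X2 a b c d x y z := by unfold X2 X3; ring
    rw [this]; exact h2

theorem goodP_all' {k x y z t1 t2 t3 : ℤ} (hk : 10 ^ 12 ≤ k) (h3 : k % 3 = 2)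
    (h4 : k % 2 = 1 ∨ k % 4 = 2) (hx : 0 < x) (hy : 0 < y) (hz : 0 < z)
    (ht1 : t1 = 1 ∨ t1 = -1) (ht2 : t2 = 1 ∨ t2 = -1) (ht3 : t3 = 1 ∨ t3 = -1) :
    GoodP k (t1 * x) (t2 * y) (t3 * z) := by
  rcases le_total x y with h1 | h1 <;> rcases le_total y z with h2 | h2 <;>
    rcases le_total x z with h5 | h5
  · exact goodP_sorted hk h3 h4 hx h1 h2 ht1 ht2 ht3
  · exact goodP_sorted hk h3 h4 hx h1 h2 ht1 ht2 ht3
  · exact (goodP_sorted hk h3 h4 hx h5 h2 ht1 ht3 ht2).swap23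
  · exact (goodP_sorted hk h3 h4 hz h5 h1 ht3 ht1 ht2).swap12.swap23
  · exact (goodP_sorted hk h3 h4 hy h1 h5 ht2 ht1 ht3).swap12
  · exact (goodP_sorted hk h3 h4 hy h2 h5 ht2 ht3 ht1).swap23.swap12
  · exact (goodP_sorted hk h3 h4 hz h2 h1 ht3 ht2 ht1).swap12.swap23.swap12
  · exact (goodP_sorted hk h3 h4 hz h2 h1 ht3 ht2 ht1).swap12.swap23.swap12

theorem sign_abs (x : ℤ) (hx : x ≠ 0) : ∃ t : ℤ, (t = 1 ∨ t = -1) ∧ x = t * |x| := by
  rcases lt_or_gt_of_ne hx with h | h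
  · exact ⟨-1, Or.inr rfl, by rw [abs_of_neg h]; ring⟩
  · exact ⟨1, Or.inl rfl, by rw [abs_of_pos h]; ring⟩

theorem goodP_all {k x y z : ℤ} (hk : 10 ^ 12 ≤ k) (h3 : k % 3 = 2)
    (h4 : k % 2 = 1 ∨ k % 4 = 2) (hx : x ≠ 0) (hy : y ≠ 0) (hz : z ≠ 0) : GoodP k x y z := by
  obtain ⟨t1, ht1, e1⟩ := sign_abs x hx
  obtain ⟨t2, ht2, e2⟩ := sign_abs y hy
  obtain ⟨t3, ht3, e3⟩ := sign_abs z hz
  rw [e1, e2, e3]
  exact goodP_all' hk h3 h4 (abs_pos.2 hx) (abs_pos.2 hy) (abs_pos.2 hz) ht1 ht2 ht3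

end H65P
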