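import Pool.Agent.Lib.H65H.CoverH
import Pool.Agent.Lib.H34S.Hex

/-!
# Sums of three hexagonal numbers and large square divisors
-/

set_option autoImplicit false

namespace H65K

open H65H (three_squares_three_mod_eight)

theorem X1_mod {k a b c d x y z : ℤ} (hp : Par k a b c d) (hy : y % 2 = 1) (hz : z % 2 = 1) :
    (k % 4 = 1 → (X1 a b c d x y z - x) % 4 = 0) ∧ (k % 4 = 3 → (X1 a b c d x y z + x) % 4 = 0) := by
  constructor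
  · intro h
    obtain ⟨h0, h1, h2, h3⟩ := hp.1 h
    obtain ⟨a', rfl⟩ : ∃ a', a = 2 * a' + 1 := ⟨a / 2, by omega⟩
    obtain ⟨b', rfl⟩ : ∃ b', b = 2 * b' := ⟨b / 2, by omega⟩
    obtain ⟨c', rfl⟩ : ∃ c', c = 2 * c' := ⟨c / 2, by omega⟩
    obtain ⟨d', rfl⟩ : ∃ d', d = 2 * d' := ⟨d / 2, by omega⟩
    have : X1 (2 * a' + 1) (2 * b') (2 * c') (2 * d') x y z - x =
        4 * ((a' ^ 2 + a' + b' ^ 2 - c' ^ 2 - d' ^ 2) * x + (2 * b' * c' - (2 * a' + 1) * d') * y +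
          (2 * b' * d' + (2 * a' + 1) * c') * z) := by
      unfold X1; ring
    omega
  · intro h
    obtain ⟨h0, h1, h2, h3⟩ := hp.2 h
    obtain ⟨a', rfl⟩ : ∃ a', a = 2 * a' := ⟨a / 2, by omega⟩
    obtain ⟨b', rfl⟩ : ∃ b', b = 2 * b' + 1 := ⟨b / 2, by omega⟩
    obtain ⟨c', rfl⟩ : ∃ c', c = 2 * c' + 1 := ⟨c / 2, by omega⟩
    obtain ⟨d', rfl⟩ : ∃ d', d = 2 * d' + 1 := ⟨d / 2, by omega⟩
    obtain ⟨y', rfl⟩ : ∃ y', y = 2 * y' + 1 := ⟨y / 2, by omega⟩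
    obtain ⟨z', rfl⟩ : ∃ z', z = 2 * z' + 1 := ⟨z / 2, by omega⟩
    have : X1 (2 * a') (2 * b' + 1) (2 * c' + 1) (2 * d' + 1) x (2 * y' + 1) (2 * z' + 1) + x =
        4 * ((a' ^ 2 + b' ^ 2 + b' - c' ^ 2 - c' - d' ^ 2 - d') * x +
          (2 * b' * c' + b' + c' - 2 * a' * d' - a') * (2 * y' + 1) +
          (2 * b' * d' + b' + d' + 2 * a' * c' + a') * (2 * z' + 1) + y' + z' + 1) := by
      unfold X1; ring
    omega

theorem X2_mod {k a b c d x y z : ℤ} (hp : Par k a b c d) (hx : x % 2 = 1) (hz : z % 2 = 1) :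
    (k % 4 = 1 → (X2 a b c d x y z - y) % 4 = 0) ∧ (k % 4 = 3 → (X2 a b c d x y z + y) % 4 = 0) := by
  have hp' : Par k a c d b := ⟨fun g => by have := hp.1 g; omega, fun g => by have := hp.2 g; omega⟩
  have h := X1_mod (x := y) (y := z) (z := x) hp' hz hx
  have e : X1 a c d b y z x = X2 a b c d x y z := by unfold X1 X2; ring
  rwa [e] at h

theorem X3_mod {k a b c d x y z : ℤ} (hp : Par k a b c d) (hx : x % 2 = 1) (hy : y % 2 = 1) :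
    (k % 4 = 1 → (X3 a b c d x y z - z) % 4 = 0) ∧ (k % 4 = 3 → (X3 a b c d x y z + z) % 4 = 0) := by
  have hp' : Par k a d b c := ⟨fun g => by have := hp.1 g; omega, fun g => by have := hp.2 g; omega⟩
  have h := X1_mod (x := z) (y := x) (z := y) hp' hx hy
  have e : X1 a d b c z x y = X3 a b c d x y z := by unfold X1 X3; ring
  rwa [e] at h

/-- The right sign. -/
theorem exists_sign (k x : ℤ) (hk : k % 2 = 1) (hx : x % 2 = 1) : ∃ t : ℤ, (t = 1 ∨ t = -1) ∧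
    ∀ X : ℤ, (k % 4 = 1 → (X - x) % 4 = 0) ∧ (k % 4 = 3 → (X + x) % 4 = 0) → (t * X) % 4 = 3 := by
  rcases (show k % 4 = 1 ∨ k % 4 = 3 by omega) with h | h <;>
    rcases (show x % 4 = 1 ∨ x % 4 = 3 by omega) with h' | h'
  · exact ⟨-1, Or.inr rfl, fun X hX => by have := hX.1 h; omega⟩
  · exact ⟨1, Or.inl rfl, fun X hX => by have := hX.1 h; omega⟩
  · exact ⟨1, Or.inl rfl, fun X hX => by have := hX.2 h; omega⟩
  · exact ⟨-1, Or.inr rfl, fun X hX => by have := hX.2 h; omega⟩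

theorem three_of_sq (n : ℕ) (y1 y2 y3 : ℤ) (h1 : 0 < y1) (h2 : 0 < y2) (h3 : 0 < y3)
    (m1 : y1 % 4 = 3) (m2 : y2 % 4 = 3) (m3 : y3 % 4 = 3)
    (h : y1 ^ 2 + y2 ^ 2 + y3 ^ 2 = 8 * n + 3) : ∃ r₁ r₂ r₃ : ℕ, 1 ≤ r₁ ∧ 1 ≤ r₂ ∧ 1 ≤ r₃ ∧
      (n : ℤ) = r₁ * (2 * r₁ - 1) + r₂ * (2 * r₂ - 1) + r₃ * (2 * r₃ - 1) := by
  obtain ⟨r₁, e1⟩ : ∃ r : ℕ, y1 = 4 * r - 1 := ⟨((y1 + 1) / 4).toNat, by omega⟩
  obtain ⟨r₂, e2⟩ : ∃ r : ℕ, y2 = 4 * r - 1 := ⟨((y2 + 1) / 4).toNat, by omega⟩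
  obtain ⟨r₃, e3⟩ : ∃ r : ℕ, y3 = 4 * r - 1 := ⟨((y3 + 1) / 4).toNat, by omega⟩
  refine ⟨r₁, r₂, r₃, by omega, by omega, by omega, ?_⟩
  rw [e1, e2, e3] at h
  nlinarith

theorem hex_large (k n : ℕ) (hk : 200000000 ≤ k) (h : k ^ 2 ∣ 8 * n + 3) :
    ∃ r₁ r₂ r₃ : ℕ, 1 ≤ r₁ ∧ 1 ≤ r₂ ∧ 1 ≤ r₃ ∧
      (n : ℤ) = r₁ * (2 * r₁ - 1) + r₂ * (2 * r₂ - 1) + r₃ * (2 * r₃ - 1) := by
  obtain ⟨m, hm⟩ := h
  have hodd : k % 2 = 1 := by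
    rcases Nat.mod_two_eq_zero_or_one k with h0 | h0
    · exfalso
      obtain ⟨j, hj⟩ : ∃ j, k = 2 * j := ⟨k / 2, by omega⟩
      rw [hj] at hm
      have : (2 * j) ^ 2 * m = 2 * (2 * j ^ 2 * m) := by ring
      omega
    · exact h0
  have hm8 : m % 8 = 3 := by
    obtain ⟨j, hj⟩ : ∃ j, k = 2 * j + 1 := ⟨k / 2, by omega⟩
    obtain ⟨i, hi⟩ : ∃ i, j * (j + 1) = 2 * i := by
      obtain ⟨i, hi⟩ := Nat.even_mul_succ_self j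
      exact ⟨i, by rw [hi]; ring⟩
    have : k ^ 2 = 8 * i + 1 := by
      rw [hj]
      calc (2 * j + 1) ^ 2 = 4 * (j * (j + 1)) + 1 := by ring
        _ = 8 * i + 1 := by rw [hi]; ring
    rw [this] at hm
    have e : (8 * i + 1) * m = 8 * (i * m) + m := by ring
    omega
  obtain ⟨u, v, w, huvw⟩ := three_squares_three_mod_eight m hm8
  have hu := sq_mod4 u
  have hv := sq_mod4 v
  have hw := sq_mod4 w
  have hu1 : |u| % 2 = 1 := by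
    rcases abs_cases u with ⟨g, _⟩ | ⟨g, _⟩ <;> rw [g] <;> omega
  have hv1 : |v| % 2 = 1 := by
    rcases abs_cases v with ⟨g, _⟩ | ⟨g, _⟩ <;> rw [g] <;> omega
  have hw1 : |w| % 2 = 1 := by
    rcases abs_cases w with ⟨g, _⟩ | ⟨g, _⟩ <;> rw [g] <;> omega
  have hu0 : 0 < |u| := abs_pos.2 (by rintro rfl; simp at hu1)
  have hv0 : 0 < |v| := abs_pos.2 (by rintro rfl; simp at hv1)
  have hw0 : 0 < |w| := abs_pos.2 (by rintro rfl; simp at hw1)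
  have hkz : (k : ℤ) % 2 = 1 := by omega
  obtain ⟨t1, ht1, f1⟩ := exists_sign k |u| hkz hu1
  obtain ⟨t2, ht2, f2⟩ := exists_sign k |v| hkz hv1
  obtain ⟨t3, ht3, f3⟩ := exists_sign k |w| hkz hw1
  obtain ⟨a, b, c, d, hn, hp, g1, g2, g3⟩ :=
    good_all (k := k) (x := |u|) (y := |v|) (z := |w|) (by exact_mod_cast hk) hkz hu0 hv0 hw0 ht1 ht2 ht3
  have s1 : t1 ^ 2 = 1 := by rcases ht1 with rfl | rfl <;> norm_num
  have s2 : t2 ^ 2 = 1 := by rcases ht2 with rfl | rfl <;> norm_num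
  have s3 : t3 ^ 2 = 1 := by rcases ht3 with rfl | rfl <;> norm_num
  refine three_of_sq n _ _ _ g1 g2 g3 (f1 _ (X1_mod hp hv1 hw1)) (f2 _ (X2_mod hp hu1 hw1))
    (f3 _ (X3_mod hp hu1 hv1)) ?_
  rw [mul_pow, mul_pow, mul_pow, s1, s2, s3, one_mul, one_mul, one_mul, X_norm, hn, sq_abs, sq_abs,
    sq_abs, ← huvw]
  have : ((8 * n + 3 : ℕ) : ℤ) = ((k ^ 2 * m : ℕ) : ℤ) := by rw [hm]
  push_cast at this
  rw [this]

/-- All square divisors `k ^ 2` of `8 n + 3` with `k` at least `2 * 10 ^ 8`. -/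
theorem hexOK_large (k : ℕ) (h : 200000000 ≤ k) : H34S.HexOK k := by
  intro n hn
  obtain ⟨r₁, r₂, r₃, h1, h2, h3, e⟩ := hex_large k n h hn
  refine ⟨r₁ - 1, r₂ - 1, r₃ - 1, ?_⟩
  obtain ⟨a, rfl⟩ : ∃ a, r₁ = a + 1 := ⟨r₁ - 1, by omega⟩
  obtain ⟨b, rfl⟩ : ∃ b, r₂ = b + 1 := ⟨r₂ - 1, by omega⟩
  obtain ⟨c, rfl⟩ : ∃ c, r₃ = c + 1 := ⟨r₃ - 1, by omega⟩
  simp only [Nat.add_sub_cancel]
  push_cast at e ⊢
  linarith

end H65K
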