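import Pool.Agent.Lib.H65H.Main
import Pool.Agent.Lib.H34S.Hex

/-!
# The large square divisors, hexagonal numbers, in the form of `Lib/H34S`
-/

set_option autoImplicit false

namespace H65H

theorem hexOK_large (k : ℕ) (h : 10 ^ 12 ≤ k) : H34S.HexOK k := by
  intro n hn
  obtain ⟨r₁, r₂, r₃, h1, h2, h3, e⟩ := hex_large k n h hn
  refine ⟨r₁ - 1, r₂ - 1, r₃ - 1, ?_⟩
  obtain ⟨a, rfl⟩ : ∃ a, r₁ = a + 1 := ⟨r₁ - 1, by omega⟩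
  obtain ⟨b, rfl⟩ : ∃ b, r₂ = b + 1 := ⟨r₂ - 1, by omega⟩
  obtain ⟨c, rfl⟩ : ∃ c, r₃ = c + 1 := ⟨r₃ - 1, by omega⟩
  simp only [Nat.add_sub_cancel]
  push_cast at e ⊢
  linarith

end H65H
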