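import Pool.Agent.Lib.H65H.Three
import Pool.Agent.Lib.H82O.A01

/-!
# Quaternions of norm `k` near the quaternions of norm `3`
-/

set_option autoImplicit false

namespace H65H

/-- The parities of the coordinates of a quaternion of odd norm `k` congruent to `1` modulo `2 O`. -/
def Par (k a b c d : ℤ) : Prop :=
  (k % 4 = 1 → a % 2 = 1 ∧ b % 2 = 0 ∧ c % 2 = 0 ∧ d % 2 = 0) ∧
  (k % 4 = 3 → a % 2 = 0 ∧ b % 2 = 1 ∧ c % 2 = 1 ∧ d % 2 = 1)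

/-- There is a quaternion of norm `k` with the right parities close to a multiple of `p`. -/
def Near (k p0 p1 p2 p3 : ℤ) : Prop :=
  ∃ a b c d s : ℤ, 0 < s ∧ a ^ 2 + b ^ 2 + c ^ 2 + d ^ 2 = k ∧ Par k a b c d ∧
    85 * |3 * a - s * p0| ≤ s ∧ 85 * |3 * b - s * p1| ≤ s ∧ 85 * |3 * c - s * p2| ≤ s ∧
    85 * |3 * d - s * p3| ≤ s

theorem choose_s (k : ℤ) (hk : 10 ^ 12 ≤ k) (c : ℤ) : ∃ s : ℤ, s % 24 = c % 24 ∧ 0 < s ∧
    0 ≤ 3 * k - s ^ 2 ∧ 21675 * (3 * k - s ^ 2) ≤ s ^ 2 := by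
  obtain ⟨S, hS0, hS1, hS2⟩ : ∃ S : ℤ, 0 ≤ S ∧ S ^ 2 ≤ 3 * k ∧ 3 * k < (S + 1) ^ 2 := by
    refine ⟨(Nat.sqrt (3 * k).toNat : ℤ), by positivity, ?_, ?_⟩
    · have h := Nat.sqrt_le' (3 * k).toNat
      have h2 : (((Nat.sqrt (3 * k).toNat) ^ 2 : ℕ) : ℤ) ≤ ((3 * k).toNat : ℤ) := by exact_mod_cast h
      rw [Int.toNat_of_nonneg (by linarith)] at h2
      push_cast at h2
      exact h2
    · have h := Nat.lt_succ_sqrt' (3 * k).toNat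
      have h2 : ((3 * k).toNat : ℤ) < (((Nat.sqrt (3 * k).toNat).succ ^ 2 : ℕ) : ℤ) := by
        exact_mod_cast h
      rw [Int.toNat_of_nonneg (by linarith)] at h2
      push_cast at h2
      exact h2
  have hSbig : 1700000 < S := by
    by_contra hcon
    push Not at hcon
    nlinarith
  have hm0 := Int.emod_nonneg (S - c) (show (24 : ℤ) ≠ 0 by norm_num)
  have hm1 := Int.emod_lt_of_pos (S - c) (show (0 : ℤ) < 24 by norm_num)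
  refine ⟨S - (S - c) % 24, by omega, by omega, ?_, ?_⟩
  · nlinarith
  · obtain ⟨t, ht⟩ : ∃ t, t = (S - c) % 24 := ⟨_, rfl⟩
    rw [← ht] at hm0 hm1 ⊢
    nlinarith

theorem sgn (x s : ℤ) (hx : x % 3 ≠ 0) (hs : s % 3 ≠ 0) :
    ∃ y : ℤ, y ^ 2 = x ^ 2 ∧ y % 2 = x % 2 ∧ (y - s) % 3 = 0 := by
  rcases (show (x - s) % 3 = 0 ∨ (-x - s) % 3 = 0 by
    rcases (show x % 3 = 1 ∨ x % 3 = 2 by omega) with h1 | h1 <;>
    rcases (show s % 3 = 1 ∨ s % 3 = 2 by omega) with h2 | h2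
    · left; omega
    · right; omega
    · right; omega
    · left; omega) with h | h
  · exact ⟨x, rfl, rfl, h⟩
  · exact ⟨-x, by ring, by omega, h⟩

theorem sq_mod3 (x : ℤ) : (x % 3 = 0 ∧ x ^ 2 % 3 = 0) ∨ (x % 3 ≠ 0 ∧ x ^ 2 % 3 = 1) := by
  obtain ⟨q, r, hr⟩ : ∃ q r : ℤ, x = 3 * q + r ∧ (r = 0 ∨ r = 1 ∨ r = 2) :=
    ⟨x / 3, x % 3, by omega, by omega⟩
  obtain ⟨h, h1 | h1 | h1⟩ := hr
  · left
    subst h1
    have : x ^ 2 = 3 * (3 * q ^ 2) := by rw [h]; ring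
    omega
  · right
    subst h1
    have : x ^ 2 = 3 * (3 * q ^ 2 + 2 * q) + 1 := by rw [h]; ring
    omega
  · right
    subst h1
    have : x ^ 2 = 3 * (3 * q ^ 2 + 4 * q + 1) + 1 := by rw [h]; ring
    omega

theorem sq_mod4 (x : ℤ) : (x % 2 = 0 ∧ x ^ 2 % 4 = 0) ∨ (x % 2 = 1 ∧ x ^ 2 % 8 = 1) := by
  obtain ⟨q, r, hr⟩ : ∃ q r : ℤ, x = 4 * q + r ∧ (r = 0 ∨ r = 1 ∨ r = 2 ∨ r = 3) :=
    ⟨x / 4, x % 4, by omega, by omega⟩
  obtain ⟨h, h1 | h1 | h1 | h1⟩ := hr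
  · left
    subst h1
    have : x ^ 2 = 4 * (4 * q ^ 2) := by rw [h]; ring
    omega
  · right
    subst h1
    have : x ^ 2 = 8 * (2 * q ^ 2 + q) + 1 := by rw [h]; ring
    omega
  · left
    subst h1
    have : x ^ 2 = 4 * (4 * q ^ 2 + 4 * q + 1) := by rw [h]; ring
    omega
  · right
    subst h1
    have : x ^ 2 = 8 * (2 * q ^ 2 + 3 * q + 1) + 1 := by rw [h]; ring
    omega

theorem abs_le_of_sq (s e : ℤ) (hs : 0 < s) (h : 7225 * e ^ 2 ≤ s ^ 2) : 85 * |e| ≤ s := by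
  have h1 : (85 * |e|) ^ 2 ≤ s ^ 2 := by
    rw [mul_pow, sq_abs]
    linarith
  exact (abs_le_of_sq_le_sq' h1 hs.le).2

/-- The signs modulo 3. -/
theorem signs (s u v w : ℤ) (hs : s % 3 ≠ 0) (h : (s ^ 2 + u ^ 2 + v ^ 2 + w ^ 2) % 3 = 0) :
    ∃ u' v' w' : ℤ, u' ^ 2 = u ^ 2 ∧ v' ^ 2 = v ^ 2 ∧ w' ^ 2 = w ^ 2 ∧
      u' % 2 = u % 2 ∧ v' % 2 = v % 2 ∧ w' % 2 = w % 2 ∧
      (u' + v' + w') % 3 = 0 ∧ (s + v' - w') % 3 = 0 ∧ (s + w' - u') % 3 = 0 ∧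
      (s + u' - v') % 3 = 0 := by
  have h0 := sq_mod3 s
  have h1 := sq_mod3 u
  have h2 := sq_mod3 v
  have h3 := sq_mod3 w
  have hs2 : (-s) % 3 ≠ 0 := by omega
  rcases (show (u % 3 = 0 ∧ v % 3 ≠ 0 ∧ w % 3 ≠ 0) ∨ (u % 3 ≠ 0 ∧ v % 3 = 0 ∧ w % 3 ≠ 0) ∨
      (u % 3 ≠ 0 ∧ v % 3 ≠ 0 ∧ w % 3 = 0) by omega) with ⟨a, b, c⟩ | ⟨a, b, c⟩ | ⟨a, b, c⟩
  · obtain ⟨v', p1, p2, p3⟩ := sgn v s b hs
    obtain ⟨w', q1, q2, q3⟩ := sgn w (-s) c hs2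
    exact ⟨u, v', w', rfl, p1, q1, rfl, p2, q2, by omega, by omega, by omega, by omega⟩
  · obtain ⟨u', p1, p2, p3⟩ := sgn u (-s) a hs2
    obtain ⟨w', q1, q2, q3⟩ := sgn w s c hs
    exact ⟨u', v, w', p1, rfl, q1, p2, rfl, q2, by omega, by omega, by omega, by omega⟩
  · obtain ⟨u', p1, p2, p3⟩ := sgn u s a hs
    obtain ⟨v', q1, q2, q3⟩ := sgn v (-s) b hs2
    exact ⟨u', v', w, p1, q1, rfl, p2, q2, rfl, by omega, by omega, by omega, by omega⟩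

theorem build0 (k s u v w : ℤ) (hs : 0 < s) (hb : 21675 * (3 * k - s ^ 2) ≤ s ^ 2) (h3 : s % 3 ≠ 0)
    (hn : 3 * k - s ^ 2 = u ^ 2 + v ^ 2 + w ^ 2)
    (hpar : (k % 4 = 1 → s % 2 = 0 ∧ u % 2 = 1 ∧ v % 2 = 1 ∧ w % 2 = 1) ∧
      (k % 4 = 3 → s % 2 = 1 ∧ u % 2 = 0 ∧ v % 2 = 0 ∧ w % 2 = 0)) : Near k 0 1 1 1 := by
  obtain ⟨u', v', w', e1, e2, e3, r1, r2, r3, m0, m1, m2, m3⟩ := signs s u v w h3 (by omega)
  obtain ⟨a, ha⟩ : ∃ a, 3 * a = -(u' + v' + w') := ⟨-(u' + v' + w') / 3, by omega⟩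
  obtain ⟨b, hb'⟩ : ∃ b, 3 * b = s + v' - w' := ⟨(s + v' - w') / 3, by omega⟩
  obtain ⟨c, hc⟩ : ∃ c, 3 * c = s + w' - u' := ⟨(s + w' - u') / 3, by omega⟩
  obtain ⟨d, hd⟩ : ∃ d, 3 * d = s + u' - v' := ⟨(s + u' - v') / 3, by omega⟩
  have hn' : 3 * k - s ^ 2 = u' ^ 2 + v' ^ 2 + w' ^ 2 := by rw [e1, e2, e3]; exact hn
  refine ⟨a, b, c, d, s, hs, ?_, ⟨?_, ?_⟩, ?_, ?_, ?_, ?_⟩
  · have : 9 * (a ^ 2 + b ^ 2 + c ^ 2 + d ^ 2) = 9 * k := by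
      calc 9 * (a ^ 2 + b ^ 2 + c ^ 2 + d ^ 2)
          = (3 * a) ^ 2 + (3 * b) ^ 2 + (3 * c) ^ 2 + (3 * d) ^ 2 := by ring
        _ = 9 * k := by rw [ha, hb', hc, hd]; linear_combination (-3 : ℤ) * hn'
    linarith
  · intro h
    have := hpar.1 h
    omega
  · intro h
    have := hpar.2 h
    omega
  · apply abs_le_of_sq _ _ hs
    rw [ha]
    nlinarith [sq_nonneg (u' - v'), sq_nonneg (v' - w'), sq_nonneg (u' - w')]
  · apply abs_le_of_sq _ _ hs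
    rw [hb']
    nlinarith [sq_nonneg (v' + w'), sq_nonneg v', sq_nonneg w', sq_nonneg u']
  · apply abs_le_of_sq _ _ hs
    rw [hc]
    nlinarith [sq_nonneg (w' + u'), sq_nonneg v', sq_nonneg w', sq_nonneg u']
  · apply abs_le_of_sq _ _ hs
    rw [hd]
    nlinarith [sq_nonneg (u' + v'), sq_nonneg v', sq_nonneg w', sq_nonneg u']

/-- The signs modulo 3, second form. -/
theorem signs1 (s u v w : ℤ) (hs : s % 3 ≠ 0) (h : (s ^ 2 + u ^ 2 + v ^ 2 + w ^ 2) % 3 = 0) :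
    ∃ u' v' w' : ℤ, u' ^ 2 = u ^ 2 ∧ v' ^ 2 = v ^ 2 ∧ w' ^ 2 = w ^ 2 ∧
      u' % 2 = u % 2 ∧ v' % 2 = v % 2 ∧ w' % 2 = w % 2 ∧
      (s - u' - v') % 3 = 0 ∧ (s + u' - w') % 3 = 0 ∧ (s + v' + w') % 3 = 0 ∧
      (u' - v' + w') % 3 = 0 := by
  have h0 := sq_mod3 s
  have h1 := sq_mod3 u
  have h2 := sq_mod3 v
  have h3 := sq_mod3 w
  have hs2 : (-s) % 3 ≠ 0 := by omega
  rcases (show (u % 3 = 0 ∧ v % 3 ≠ 0 ∧ w % 3 ≠ 0) ∨ (u % 3 ≠ 0 ∧ v % 3 = 0 ∧ w % 3 ≠ 0) ∨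
      (u % 3 ≠ 0 ∧ v % 3 ≠ 0 ∧ w % 3 = 0) by omega) with ⟨a, b, c⟩ | ⟨a, b, c⟩ | ⟨a, b, c⟩
  · obtain ⟨v', p1, p2, p3⟩ := sgn v s b hs
    obtain ⟨w', q1, q2, q3⟩ := sgn w s c hs
    exact ⟨u, v', w', rfl, p1, q1, rfl, p2, q2, by omega, by omega, by omega, by omega⟩
  · obtain ⟨u', p1, p2, p3⟩ := sgn u s a hs
    obtain ⟨w', q1, q2, q3⟩ := sgn w (-s) c hs2
    exact ⟨u', v, w', p1, rfl, q1, p2, rfl, q2, by omega, by omega, by omega, by omega⟩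
  · obtain ⟨u', p1, p2, p3⟩ := sgn u (-s) a hs2
    obtain ⟨v', q1, q2, q3⟩ := sgn v (-s) b hs2
    exact ⟨u', v', w, p1, q1, rfl, p2, q2, rfl, by omega, by omega, by omega, by omega⟩

theorem build1 (k s u v w : ℤ) (hs : 0 < s) (hb : 21675 * (3 * k - s ^ 2) ≤ s ^ 2) (h3 : s % 3 ≠ 0)
    (hn : 3 * k - s ^ 2 = u ^ 2 + v ^ 2 + w ^ 2)
    (hpar : (k % 4 = 1 → s % 2 = 1 ∧ u % 2 = 1 ∧ v % 2 = 1 ∧ w % 2 = 0) ∧
      (k % 4 = 3 → s % 2 = 0 ∧ u % 2 = 0 ∧ v % 2 = 0 ∧ w % 2 = 1)) : Near k 1 1 1 0 := by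
  obtain ⟨u', v', w', e1, e2, e3, r1, r2, r3, m0, m1, m2, m3⟩ := signs1 s u v w h3 (by omega)
  obtain ⟨a, ha⟩ : ∃ a, 3 * a = s - u' - v' := ⟨(s - u' - v') / 3, by omega⟩
  obtain ⟨b, hb'⟩ : ∃ b, 3 * b = s + u' - w' := ⟨(s + u' - w') / 3, by omega⟩
  obtain ⟨c, hc⟩ : ∃ c, 3 * c = s + v' + w' := ⟨(s + v' + w') / 3, by omega⟩
  obtain ⟨d, hd⟩ : ∃ d, 3 * d = u' - v' + w' := ⟨(u' - v' + w') / 3, by omega⟩
  have hn' : 3 * k - s ^ 2 = u' ^ 2 + v' ^ 2 + w' ^ 2 := by rw [e1, e2, e3]; exact hn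
  refine ⟨a, b, c, d, s, hs, ?_, ⟨?_, ?_⟩, ?_, ?_, ?_, ?_⟩
  · have : 9 * (a ^ 2 + b ^ 2 + c ^ 2 + d ^ 2) = 9 * k := by
      calc 9 * (a ^ 2 + b ^ 2 + c ^ 2 + d ^ 2)
          = (3 * a) ^ 2 + (3 * b) ^ 2 + (3 * c) ^ 2 + (3 * d) ^ 2 := by ring
        _ = 9 * k := by rw [ha, hb', hc, hd]; linear_combination (-3 : ℤ) * hn'
    linarith
  · intro h
    have := hpar.1 h
    omega
  · intro h
    have := hpar.2 h
    omega
  · apply abs_le_of_sq _ _ hs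
    rw [ha]
    nlinarith [sq_nonneg (u' - v'), sq_nonneg v', sq_nonneg w', sq_nonneg u']
  · apply abs_le_of_sq _ _ hs
    rw [hb']
    nlinarith [sq_nonneg (u' + w'), sq_nonneg v', sq_nonneg w', sq_nonneg u']
  · apply abs_le_of_sq _ _ hs
    rw [hc]
    nlinarith [sq_nonneg (v' - w'), sq_nonneg v', sq_nonneg w', sq_nonneg u']
  · apply abs_le_of_sq _ _ hs
    rw [hd]
    nlinarith [sq_nonneg (u' + v'), sq_nonneg (v' + w'), sq_nonneg (u' - w'), sq_nonneg w', sq_nonneg u']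

theorem toNat_three {N : ℤ} (h0 : 0 ≤ N) (h : N % 8 = 3) :
    ∃ x y z : ℤ, N = x ^ 2 + y ^ 2 + z ^ 2 := by
  obtain ⟨x, y, z, h1⟩ := three_squares_three_mod_eight N.toNat (by omega)
  exact ⟨x, y, z, by rw [← h1, Int.toNat_of_nonneg h0]⟩

theorem toNat_one {N : ℤ} (h0 : 0 ≤ N) (h : N % 4 = 1) :
    ∃ x y z : ℤ, N = x ^ 2 + y ^ 2 + z ^ 2 := by
  obtain ⟨x, y, z, h1⟩ := Pool.Agent.Lib.H82O.three_squares_one_mod_four N.toNat (by omega)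
  exact ⟨x, y, z, by rw [← h1, Int.toNat_of_nonneg h0]⟩

theorem toNat_two {N : ℤ} (h0 : 0 ≤ N) (h : N % 4 = 2) :
    ∃ x y z : ℤ, N = x ^ 2 + y ^ 2 + z ^ 2 := by
  obtain ⟨x, y, z, h1⟩ :=
    Pool.Agent.Lib.H63.ThreeSquares.three_squares_two_mod_four N.toNat (by omega)
  exact ⟨x, y, z, by rw [← h1, Int.toNat_of_nonneg h0]⟩

/-- `s ^ 2` modulo 16 for odd `s` with given residue modulo 24. -/
theorem sq16_one {s : ℤ} (h : s % 24 = 1) : s ^ 2 % 16 = 1 := by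
  obtain ⟨q, hq⟩ : ∃ q, s = 24 * q + 1 := ⟨s / 24, by omega⟩
  have : s ^ 2 = 16 * (36 * q ^ 2 + 3 * q) + 1 := by rw [hq]; ring
  omega

theorem sq16_five {s : ℤ} (h : s % 24 = 5) : s ^ 2 % 16 = 9 := by
  obtain ⟨q, hq⟩ : ∃ q, s = 24 * q + 5 := ⟨s / 24, by omega⟩
  have : s ^ 2 = 16 * (36 * q ^ 2 + 15 * q + 1) + 9 := by rw [hq]; ring
  omega

theorem sq8_two {s : ℤ} (h : s % 24 = 2) : s ^ 2 % 8 = 4 := by
  obtain ⟨q, hq⟩ : ∃ q, s = 24 * q + 2 := ⟨s / 24, by omega⟩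
  have : s ^ 2 = 8 * (72 * q ^ 2 + 12 * q) + 4 := by rw [hq]; ring
  omega

theorem sq8_four {s : ℤ} (h : s % 24 = 4) : s ^ 2 % 8 = 0 := by
  obtain ⟨q, hq⟩ : ∃ q, s = 24 * q + 4 := ⟨s / 24, by omega⟩
  have : s ^ 2 = 8 * (72 * q ^ 2 + 24 * q + 2) := by rw [hq]; ring
  omega

theorem near0 (k : ℤ) (hk : 10 ^ 12 ≤ k) (hodd : k % 2 = 1) : Near k 0 1 1 1 := by
  rcases (show k % 8 = 1 ∨ k % 8 = 5 ∨ k % 4 = 3 by omega) with h | h | h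
  · obtain ⟨s, h1, h2, h3, h4⟩ := choose_s k hk 4
    have h1' : s % 24 = 4 := by omega
    have h5 := sq8_four h1'
    obtain ⟨u, v, w, hn⟩ := toNat_three h3 (by omega)
    have := sq_mod4 u
    have := sq_mod4 v
    have := sq_mod4 w
    exact build0 k s u v w h2 h4 (by omega) hn ⟨fun _ => by omega, fun _ => by omega⟩
  · obtain ⟨s, h1, h2, h3, h4⟩ := choose_s k hk 2
    have h1' : s % 24 = 2 := by omega
    have h5 := sq8_two h1'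
    obtain ⟨u, v, w, hn⟩ := toNat_three h3 (by omega)
    have := sq_mod4 u
    have := sq_mod4 v
    have := sq_mod4 w
    exact build0 k s u v w h2 h4 (by omega) hn ⟨fun _ => by omega, fun _ => by omega⟩
  · obtain ⟨s, h1, h2, h3, h4, h5⟩ : ∃ s : ℤ, s % 2 = 1 ∧ s % 3 ≠ 0 ∧ 0 < s ∧
        0 ≤ 3 * k - s ^ 2 ∧ 21675 * (3 * k - s ^ 2) ≤ s ^ 2 ∧
        ((3 * k - s ^ 2) % 16 = 4 ∨ (3 * k - s ^ 2) % 16 = 8) := by
      rcases (show k % 16 = 3 ∨ k % 16 = 7 ∨ k % 16 = 11 ∨ k % 16 = 15 by omega) with g | g | g | g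
      · obtain ⟨s, h1, h2, h3, h4⟩ := choose_s k hk 1
        have := sq16_one (s := s) (by omega)
        exact ⟨s, by omega, by omega, h2, h3, h4, by omega⟩
      · obtain ⟨s, h1, h2, h3, h4⟩ := choose_s k hk 1
        have := sq16_one (s := s) (by omega)
        exact ⟨s, by omega, by omega, h2, h3, h4, by omega⟩
      · obtain ⟨s, h1, h2, h3, h4⟩ := choose_s k hk 5
        have := sq16_five (s := s) (by omega)
        exact ⟨s, by omega, by omega, h2, h3, h4, by omega⟩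
      · obtain ⟨s, h1, h2, h3, h4⟩ := choose_s k hk 5
        have := sq16_five (s := s) (by omega)
        exact ⟨s, by omega, by omega, h2, h3, h4, by omega⟩
    obtain ⟨h5, h6⟩ := h5
    obtain ⟨M, hM⟩ : ∃ M, 3 * k - s ^ 2 = 4 * M := ⟨(3 * k - s ^ 2) / 4, by omega⟩
    obtain ⟨u, v, w, hn⟩ : ∃ x y z : ℤ, M = x ^ 2 + y ^ 2 + z ^ 2 := by
      rcases h6 with h6 | h6
      · exact toNat_one (by omega) (by omega)
      · exact toNat_two (by omega) (by omega)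
    refine build0 k s (2 * u) (2 * v) (2 * w) h3 h5 h2 ?_ ⟨fun _ => by omega, fun _ => by omega⟩
    rw [hM, hn]
    ring

theorem near1 (k : ℤ) (hk : 10 ^ 12 ≤ k) (hodd : k % 2 = 1) : Near k 1 1 1 0 := by
  rcases (show k % 4 = 1 ∨ k % 4 = 3 by omega) with h | h
  · obtain ⟨s, h1, h2, h3, h4⟩ := choose_s k hk 1
    have h5 := sq16_one (s := s) (by omega)
    obtain ⟨u, v, w, hn⟩ := toNat_two h3 (by omega)
    have e1 := sq_mod4 u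
    have e2 := sq_mod4 v
    have e3 := sq_mod4 w
    rcases (show u % 2 = 0 ∨ v % 2 = 0 ∨ w % 2 = 0 by omega) with g | g | g
    · exact build1 k s v w u h2 h4 (by omega) (by linarith) ⟨fun _ => by omega, fun _ => by omega⟩
    · exact build1 k s u w v h2 h4 (by omega) (by linarith) ⟨fun _ => by omega, fun _ => by omega⟩
    · exact build1 k s u v w h2 h4 (by omega) (by linarith) ⟨fun _ => by omega, fun _ => by omega⟩
  · obtain ⟨s, h1, h2, h3, h4⟩ := choose_s k hk 4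
    have h5 := sq8_four (s := s) (by omega)
    obtain ⟨u, v, w, hn⟩ := toNat_one h3 (by omega)
    have e1 := sq_mod4 u
    have e2 := sq_mod4 v
    have e3 := sq_mod4 w
    rcases (show u % 2 = 1 ∨ v % 2 = 1 ∨ w % 2 = 1 by omega) with g | g | g
    · exact build1 k s v w u h2 h4 (by omega) (by linarith) ⟨fun _ => by omega, fun _ => by omega⟩
    · exact build1 k s u w v h2 h4 (by omega) (by linarith) ⟨fun _ => by omega, fun _ => by omega⟩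
    · exact build1 k s u v w h2 h4 (by omega) (by linarith) ⟨fun _ => by omega, fun _ => by omega⟩

theorem Near.neg0 {k p0 p1 p2 p3 : ℤ} (h : Near k p0 p1 p2 p3) : Near k (-p0) p1 p2 p3 := by
  obtain ⟨a, b, c, d, s, hs, hn, hp, h0, h1, h2, h3⟩ := h
  refine ⟨-a, b, c, d, s, hs, by rw [← hn]; ring, ⟨fun g => ?_, fun g => ?_⟩, ?_, h1, h2, h3⟩
  · have := hp.1 g
    omega
  · have := hp.2 g
    omega
  · rw [show 3 * -a - s * -p0 = -(3 * a - s * p0) by ring, abs_neg]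
    exact h0

theorem Near.neg1 {k p0 p1 p2 p3 : ℤ} (h : Near k p0 p1 p2 p3) : Near k p0 (-p1) p2 p3 := by
  obtain ⟨a, b, c, d, s, hs, hn, hp, h0, h1, h2, h3⟩ := h
  refine ⟨a, -b, c, d, s, hs, by rw [← hn]; ring, ⟨fun g => ?_, fun g => ?_⟩, h0, ?_, h2, h3⟩
  · have := hp.1 g
    omega
  · have := hp.2 g
    omega
  · rw [show 3 * -b - s * -p1 = -(3 * b - s * p1) by ring, abs_neg]
    exact h1

/-- Exchange the second and the third coordinate. -/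
theorem Near.swap12 {k p0 p1 p2 p3 : ℤ} (h : Near k p0 p1 p2 p3) : Near k p0 p2 p1 p3 := by
  obtain ⟨a, b, c, d, s, hs, hn, hp, h0, h1, h2, h3⟩ := h
  refine ⟨a, c, b, d, s, hs, by rw [← hn]; ring, ⟨fun g => ?_, fun g => ?_⟩, h0, h2, h1, h3⟩
  · have := hp.1 g
    omega
  · have := hp.2 g
    omega

/-- Exchange the third and the fourth coordinate. -/
theorem Near.swap23 {k p0 p1 p2 p3 : ℤ} (h : Near k p0 p1 p2 p3) : Near k p0 p1 p3 p2 := by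
  obtain ⟨a, b, c, d, s, hs, hn, hp, h0, h1, h2, h3⟩ := h
  refine ⟨a, b, d, c, s, hs, by rw [← hn]; ring, ⟨fun g => ?_, fun g => ?_⟩, h0, h1, h3, h2⟩
  · have := hp.1 g
    omega
  · have := hp.2 g
    omega

theorem Near.neg2 {k p0 p1 p2 p3 : ℤ} (h : Near k p0 p1 p2 p3) : Near k p0 p1 (-p2) p3 :=
  h.swap12.neg1.swap12

theorem Near.neg3 {k p0 p1 p2 p3 : ℤ} (h : Near k p0 p1 p2 p3) : Near k p0 p1 p2 (-p3) :=
  h.swap23.neg2.swap23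

end H65H
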