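import Pool.Agent.Lib.H65H.Three
import Pool.Agent.Lib.H82O.A01

/-!
# Quaternions of norm `k` near the quaternions of norm `3`, smaller threshold
-/

set_option autoImplicit false

namespace H65K

open H65H (three_squares_three_mod_eight)

/-- The parities of the coordinates of a quaternion of odd norm `k` congruent to `1` modulo `2 O`. -/
def Par (k a b c d : ℤ) : Prop :=
  (k % 4 = 1 → a % 2 = 1 ∧ b % 2 = 0 ∧ c % 2 = 0 ∧ d % 2 = 0) ∧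
  (k % 4 = 3 → a % 2 = 0 ∧ b % 2 = 1 ∧ c % 2 = 1 ∧ d % 2 = 1)

/-- There is a quaternion of norm `k` with the right parities at a small angle to `p`. -/
def Near (k p0 p1 p2 p3 : ℤ) : Prop :=
  ∃ a b c d : ℤ, a ^ 2 + b ^ 2 + c ^ 2 + d ^ 2 = k ∧ Par k a b c d ∧
    1200 * (3 * k - (a * p0 + b * p1 + c * p2 + d * p3) ^ 2) <
      (a * p0 + b * p1 + c * p2 + d * p3) ^ 2

/-- The ten integers below the square root of `3 k`. -/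
theorem sqrt_near (k : ℤ) (hk : 200000000 ≤ k) : ∃ S : ℤ, ∀ s : ℤ, S - 9 ≤ s → s ≤ S →
    0 ≤ 3 * k - s ^ 2 ∧ 1200 * (3 * k - s ^ 2) < s ^ 2 := by
  obtain ⟨S, hS0, hS1, hS2⟩ : ∃ S : ℤ, 0 ≤ S ∧ S ^ 2 ≤ 3 * k ∧ 3 * k < (S + 1) ^ 2 := by
    refine ⟨(Nat.sqrt (3 * k).toNat : ℤ), by positivity, ?_, ?_⟩
    · have h := Nat.sqrt_le' (3 * k).toNat
      have h2 : (((Nat.sqrt (3 * k).toNat) ^ 2 : ℕ) : ℤ) ≤ ((3 * k).toNat : ℤ) := by exact_mod_cast h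
      rw [Int.toNat_of_nonneg (by linarith)] at h2
      push_cast at h2
      exact h2
    · have h := Nat.lt_succ_sqrt' (3 * k).toNat
      have h2 : ((3 * k).toNat : ℤ) < (((Nat.sqrt (3 * k).toNat).succ ^ 2 : ℕ) : ℤ) := by
        exact_mod_cast h
      rw [Int.toNat_of_nonneg (by linarith)] at h2
      push_cast at h2
      exact h2
  have hSbig : 24493 < S := by
    by_contra hcon
    push Not at hcon
    nlinarith
  refine ⟨S, fun s h1 h2 => ⟨?_, ?_⟩⟩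
  · have h3 : s ^ 2 ≤ S ^ 2 := pow_le_pow_left₀ (by omega) h2 2
    linarith
  · have h3 : (S + 1) ^ 2 ≤ (s + 10) ^ 2 := pow_le_pow_left₀ (by omega) (by omega) 2
    have h4 : 24485 * s ≤ s * s := mul_le_mul_of_nonneg_right (by omega) (by omega)
    nlinarith

theorem sgn (x s : ℤ) (hx : x % 3 ≠ 0) (hs : s % 3 ≠ 0) :
    ∃ y : ℤ, y ^ 2 = x ^ 2 ∧ y % 2 = x % 2 ∧ (y - s) % 3 = 0 := by
  rcases (show (x - s) % 3 = 0 ∨ (-x - s) % 3 = 0 by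
    rcases (show x % 3 = 1 ∨ x % 3 = 2 by omega) with h1 | h1 <;>
    rcases (show s % 3 = 1 ∨ s % 3 = 2 by omega) with h2 | h2
    · left; omega
    · right; omega
    · right; omega
    · left; omega) with h | h
  · exact ⟨x, rfl, rfl, h⟩
  · exact ⟨-x, by ring, by omega, h⟩

theorem sq_mod3 (x : ℤ) : (x % 3 = 0 ∧ x ^ 2 % 3 = 0) ∨ (x % 3 ≠ 0 ∧ x ^ 2 % 3 = 1) := by
  obtain ⟨q, r, hr⟩ : ∃ q r : ℤ, x = 3 * q + r ∧ (r = 0 ∨ r = 1 ∨ r = 2) :=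
    ⟨x / 3, x % 3, by omega, by omega⟩
  obtain ⟨h, h1 | h1 | h1⟩ := hr
  · left
    subst h1
    have : x ^ 2 = 3 * (3 * q ^ 2) := by rw [h]; ring
    omega
  · right
    subst h1
    have : x ^ 2 = 3 * (3 * q ^ 2 + 2 * q) + 1 := by rw [h]; ring
    omega
  · right
    subst h1
    have : x ^ 2 = 3 * (3 * q ^ 2 + 4 * q + 1) + 1 := by rw [h]; ring
    omega

theorem sq_mod4 (x : ℤ) : (x % 2 = 0 ∧ x ^ 2 % 4 = 0) ∨ (x % 2 = 1 ∧ x ^ 2 % 8 = 1) := by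
  obtain ⟨q, r, hr⟩ : ∃ q r : ℤ, x = 4 * q + r ∧ (r = 0 ∨ r = 1 ∨ r = 2 ∨ r = 3) :=
    ⟨x / 4, x % 4, by omega, by omega⟩
  obtain ⟨h, h1 | h1 | h1 | h1⟩ := hr
  · left
    subst h1
    have : x ^ 2 = 4 * (4 * q ^ 2) := by rw [h]; ring
    omega
  · right
    subst h1
    have : x ^ 2 = 8 * (2 * q ^ 2 + q) + 1 := by rw [h]; ring
    omega
  · left
    subst h1
    have : x ^ 2 = 4 * (4 * q ^ 2 + 4 * q + 1) := by rw [h]; ring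
    omega
  · right
    subst h1
    have : x ^ 2 = 8 * (2 * q ^ 2 + 3 * q + 1) + 1 := by rw [h]; ring
    omega

/-- The signs modulo 3. -/
theorem signs (s u v w : ℤ) (hs : s % 3 ≠ 0) (h : (s ^ 2 + u ^ 2 + v ^ 2 + w ^ 2) % 3 = 0) :
    ∃ u' v' w' : ℤ, u' ^ 2 = u ^ 2 ∧ v' ^ 2 = v ^ 2 ∧ w' ^ 2 = w ^ 2 ∧
      u' % 2 = u % 2 ∧ v' % 2 = v % 2 ∧ w' % 2 = w % 2 ∧
      (u' + v' + w') % 3 = 0 ∧ (s + v' - w') % 3 = 0 ∧ (s + w' - u') % 3 = 0 ∧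
      (s + u' - v') % 3 = 0 := by
  have h0 := sq_mod3 s
  have h1 := sq_mod3 u
  have h2 := sq_mod3 v
  have h3 := sq_mod3 w
  have hs2 : (-s) % 3 ≠ 0 := by omega
  rcases (show (u % 3 = 0 ∧ v % 3 ≠ 0 ∧ w % 3 ≠ 0) ∨ (u % 3 ≠ 0 ∧ v % 3 = 0 ∧ w % 3 ≠ 0) ∨
      (u % 3 ≠ 0 ∧ v % 3 ≠ 0 ∧ w % 3 = 0) by omega) with ⟨a, b, c⟩ | ⟨a, b, c⟩ | ⟨a, b, c⟩
  · obtain ⟨v', p1, p2, p3⟩ := sgn v s b hs
    obtain ⟨w', q1, q2, q3⟩ := sgn w (-s) c hs2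
    exact ⟨u, v', w', rfl, p1, q1, rfl, p2, q2, by omega, by omega, by omega, by omega⟩
  · obtain ⟨u', p1, p2, p3⟩ := sgn u (-s) a hs2
    obtain ⟨w', q1, q2, q3⟩ := sgn w s c hs
    exact ⟨u', v, w', p1, rfl, q1, p2, rfl, q2, by omega, by omega, by omega, by omega⟩
  · obtain ⟨u', p1, p2, p3⟩ := sgn u s a hs
    obtain ⟨v', q1, q2, q3⟩ := sgn v (-s) b hs2
    exact ⟨u', v', w, p1, q1, rfl, p2, q2, rfl, by omega, by omega, by omega, by omega⟩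

theorem build0 (k s u v w : ℤ) (hb : 1200 * (3 * k - s ^ 2) < s ^ 2) (h3 : s % 3 ≠ 0)
    (hn : 3 * k - s ^ 2 = u ^ 2 + v ^ 2 + w ^ 2)
    (hpar : (k % 4 = 1 → s % 2 = 0 ∧ u % 2 = 1 ∧ v % 2 = 1 ∧ w % 2 = 1) ∧
      (k % 4 = 3 → s % 2 = 1 ∧ u % 2 = 0 ∧ v % 2 = 0 ∧ w % 2 = 0)) : Near k 0 1 1 1 := by
  obtain ⟨u', v', w', e1, e2, e3, r1, r2, r3, m0, m1, m2, m3⟩ := signs s u v w h3 (by omega)
  obtain ⟨a, ha⟩ : ∃ a, 3 * a = -(u' + v' + w') := ⟨-(u' + v' + w') / 3, by omega⟩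
  obtain ⟨b, hb'⟩ : ∃ b, 3 * b = s + v' - w' := ⟨(s + v' - w') / 3, by omega⟩
  obtain ⟨c, hc⟩ : ∃ c, 3 * c = s + w' - u' := ⟨(s + w' - u') / 3, by omega⟩
  obtain ⟨d, hd⟩ : ∃ d, 3 * d = s + u' - v' := ⟨(s + u' - v') / 3, by omega⟩
  have hn' : 3 * k - s ^ 2 = u' ^ 2 + v' ^ 2 + w' ^ 2 := by rw [e1, e2, e3]; exact hn
  have hs : a * 0 + b * 1 + c * 1 + d * 1 = s := by omega
  refine ⟨a, b, c, d, ?_, ⟨?_, ?_⟩, ?_⟩
  · have : 9 * (a ^ 2 + b ^ 2 + c ^ 2 + d ^ 2) = 9 * k := by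
      calc 9 * (a ^ 2 + b ^ 2 + c ^ 2 + d ^ 2)
          = (3 * a) ^ 2 + (3 * b) ^ 2 + (3 * c) ^ 2 + (3 * d) ^ 2 := by ring
        _ = 9 * k := by rw [ha, hb', hc, hd]; linear_combination (-3 : ℤ) * hn'
    linarith
  · intro h
    have := hpar.1 h
    clear hn hn' hb hpar e1 e2 e3
    omega
  · intro h
    have := hpar.2 h
    clear hn hn' hb hpar e1 e2 e3
    omega
  · rw [hs]
    exact hb

/-- The signs modulo 3, second form. -/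
theorem signs1 (s u v w : ℤ) (hs : s % 3 ≠ 0) (h : (s ^ 2 + u ^ 2 + v ^ 2 + w ^ 2) % 3 = 0) :
    ∃ u' v' w' : ℤ, u' ^ 2 = u ^ 2 ∧ v' ^ 2 = v ^ 2 ∧ w' ^ 2 = w ^ 2 ∧
      u' % 2 = u % 2 ∧ v' % 2 = v % 2 ∧ w' % 2 = w % 2 ∧
      (s - u' - v') % 3 = 0 ∧ (s + u' - w') % 3 = 0 ∧ (s + v' + w') % 3 = 0 ∧
      (u' - v' + w') % 3 = 0 := by
  have h0 := sq_mod3 s
  have h1 := sq_mod3 u
  have h2 := sq_mod3 v
  have h3 := sq_mod3 w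
  have hs2 : (-s) % 3 ≠ 0 := by omega
  rcases (show (u % 3 = 0 ∧ v % 3 ≠ 0 ∧ w % 3 ≠ 0) ∨ (u % 3 ≠ 0 ∧ v % 3 = 0 ∧ w % 3 ≠ 0) ∨
      (u % 3 ≠ 0 ∧ v % 3 ≠ 0 ∧ w % 3 = 0) by omega) with ⟨a, b, c⟩ | ⟨a, b, c⟩ | ⟨a, b, c⟩
  · obtain ⟨v', p1, p2, p3⟩ := sgn v s b hs
    obtain ⟨w', q1, q2, q3⟩ := sgn w s c hs
    exact ⟨u, v', w', rfl, p1, q1, rfl, p2, q2, by omega, by omega, by omega, by omega⟩
  · obtain ⟨u', p1, p2, p3⟩ := sgn u s a hs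
    obtain ⟨w', q1, q2, q3⟩ := sgn w (-s) c hs2
    exact ⟨u', v, w', p1, rfl, q1, p2, rfl, q2, by omega, by omega, by omega, by omega⟩
  · obtain ⟨u', p1, p2, p3⟩ := sgn u (-s) a hs2
    obtain ⟨v', q1, q2, q3⟩ := sgn v (-s) b hs2
    exact ⟨u', v', w, p1, q1, rfl, p2, q2, rfl, by omega, by omega, by omega, by omega⟩

theorem build1 (k s u v w : ℤ) (hb : 1200 * (3 * k - s ^ 2) < s ^ 2) (h3 : s % 3 ≠ 0)
    (hn : 3 * k - s ^ 2 = u ^ 2 + v ^ 2 + w ^ 2)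
    (hpar : (k % 4 = 1 → s % 2 = 1 ∧ u % 2 = 1 ∧ v % 2 = 1 ∧ w % 2 = 0) ∧
      (k % 4 = 3 → s % 2 = 0 ∧ u % 2 = 0 ∧ v % 2 = 0 ∧ w % 2 = 1)) : Near k 1 1 1 0 := by
  obtain ⟨u', v', w', e1, e2, e3, r1, r2, r3, m0, m1, m2, m3⟩ := signs1 s u v w h3 (by omega)
  obtain ⟨a, ha⟩ : ∃ a, 3 * a = s - u' - v' := ⟨(s - u' - v') / 3, by omega⟩
  obtain ⟨b, hb'⟩ : ∃ b, 3 * b = s + u' - w' := ⟨(s + u' - w') / 3, by omega⟩
  obtain ⟨c, hc⟩ : ∃ c, 3 * c = s + v' + w' := ⟨(s + v' + w') / 3, by omega⟩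
  obtain ⟨d, hd⟩ : ∃ d, 3 * d = u' - v' + w' := ⟨(u' - v' + w') / 3, by omega⟩
  have hn' : 3 * k - s ^ 2 = u' ^ 2 + v' ^ 2 + w' ^ 2 := by rw [e1, e2, e3]; exact hn
  have hs : a * 1 + b * 1 + c * 1 + d * 0 = s := by omega
  refine ⟨a, b, c, d, ?_, ⟨?_, ?_⟩, ?_⟩
  · have : 9 * (a ^ 2 + b ^ 2 + c ^ 2 + d ^ 2) = 9 * k := by
      calc 9 * (a ^ 2 + b ^ 2 + c ^ 2 + d ^ 2)
          = (3 * a) ^ 2 + (3 * b) ^ 2 + (3 * c) ^ 2 + (3 * d) ^ 2 := by ring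
        _ = 9 * k := by rw [ha, hb', hc, hd]; linear_combination (-3 : ℤ) * hn'
    linarith
  · intro h
    have := hpar.1 h
    clear hn hn' hb hpar e1 e2 e3
    omega
  · intro h
    have := hpar.2 h
    clear hn hn' hb hpar e1 e2 e3
    omega
  · rw [hs]
    exact hb

theorem toNat_three {N : ℤ} (h0 : 0 ≤ N) (h : N % 8 = 3) :
    ∃ x y z : ℤ, N = x ^ 2 + y ^ 2 + z ^ 2 := by
  obtain ⟨x, y, z, h1⟩ := three_squares_three_mod_eight N.toNat (by omega)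
  exact ⟨x, y, z, by rw [← h1, Int.toNat_of_nonneg h0]⟩

theorem toNat_one {N : ℤ} (h0 : 0 ≤ N) (h : N % 4 = 1) :
    ∃ x y z : ℤ, N = x ^ 2 + y ^ 2 + z ^ 2 := by
  obtain ⟨x, y, z, h1⟩ := Pool.Agent.Lib.H82O.three_squares_one_mod_four N.toNat (by omega)
  exact ⟨x, y, z, by rw [← h1, Int.toNat_of_nonneg h0]⟩

theorem toNat_two {N : ℤ} (h0 : 0 ≤ N) (h : N % 4 = 2) :
    ∃ x y z : ℤ, N = x ^ 2 + y ^ 2 + z ^ 2 := by
  obtain ⟨x, y, z, h1⟩ :=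
    Pool.Agent.Lib.H63.ThreeSquares.three_squares_two_mod_four N.toNat (by omega)
  exact ⟨x, y, z, by rw [← h1, Int.toNat_of_nonneg h0]⟩

theorem pick48 (S : ℤ) : ∃ s : ℤ, S - 9 ≤ s ∧ s ≤ S ∧ (s % 12 = 4 ∨ s % 12 = 8) := by
  rcases (show S % 12 = 0 ∨ S % 12 = 1 ∨ S % 12 = 2 ∨ S % 12 = 3 ∨ S % 12 = 4 ∨ S % 12 = 5 ∨ S % 12 = 6 ∨ S % 12 = 7 ∨ S % 12 = 8 ∨ S % 12 = 9 ∨ S % 12 = 10 ∨ S % 12 = 11 by omega) with h | h | h | h | h | h | h | h | h | h | h | h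
  · exact ⟨S - 4, by omega, by omega, by omega⟩
  · exact ⟨S - 5, by omega, by omega, by omega⟩
  · exact ⟨S - 6, by omega, by omega, by omega⟩
  · exact ⟨S - 7, by omega, by omega, by omega⟩
  · exact ⟨S - 0, by omega, by omega, by omega⟩
  · exact ⟨S - 1, by omega, by omega, by omega⟩
  · exact ⟨S - 2, by omega, by omega, by omega⟩
  · exact ⟨S - 3, by omega, by omega, by omega⟩
  · exact ⟨S - 0, by omega, by omega, by omega⟩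
  · exact ⟨S - 1, by omega, by omega, by omega⟩
  · exact ⟨S - 2, by omega, by omega, by omega⟩
  · exact ⟨S - 3, by omega, by omega, by omega⟩

theorem pick210 (S : ℤ) : ∃ s : ℤ, S - 9 ≤ s ∧ s ≤ S ∧ (s % 12 = 2 ∨ s % 12 = 10) := by
  rcases (show S % 12 = 0 ∨ S % 12 = 1 ∨ S % 12 = 2 ∨ S % 12 = 3 ∨ S % 12 = 4 ∨ S % 12 = 5 ∨ S % 12 = 6 ∨ S % 12 = 7 ∨ S % 12 = 8 ∨ S % 12 = 9 ∨ S % 12 = 10 ∨ S % 12 = 11 by omega) with h | h | h | h | h | h | h | h | h | h | h | h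
  · exact ⟨S - 2, by omega, by omega, by omega⟩
  · exact ⟨S - 3, by omega, by omega, by omega⟩
  · exact ⟨S - 0, by omega, by omega, by omega⟩
  · exact ⟨S - 1, by omega, by omega, by omega⟩
  · exact ⟨S - 2, by omega, by omega, by omega⟩
  · exact ⟨S - 3, by omega, by omega, by omega⟩
  · exact ⟨S - 4, by omega, by omega, by omega⟩
  · exact ⟨S - 5, by omega, by omega, by omega⟩
  · exact ⟨S - 6, by omega, by omega, by omega⟩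
  · exact ⟨S - 7, by omega, by omega, by omega⟩
  · exact ⟨S - 0, by omega, by omega, by omega⟩
  · exact ⟨S - 1, by omega, by omega, by omega⟩

theorem pick1 (S : ℤ) : ∃ s : ℤ, S - 9 ≤ s ∧ s ≤ S ∧ (s % 24 = 1 ∨ s % 24 = 7 ∨ s % 24 = 17 ∨ s % 24 = 23) := by
  rcases (show S % 24 = 0 ∨ S % 24 = 1 ∨ S % 24 = 2 ∨ S % 24 = 3 ∨ S % 24 = 4 ∨ S % 24 = 5 ∨ S % 24 = 6 ∨ S % 24 = 7 ∨ S % 24 = 8 ∨ S % 24 = 9 ∨ S % 24 = 10 ∨ S % 24 = 11 ∨ S % 24 = 12 ∨ S % 24 = 13 ∨ S % 24 = 14 ∨ S % 24 = 15 ∨ S % 24 = 16 ∨ S % 24 = 17 ∨ S % 24 = 18 ∨ S % 24 = 19 ∨ S % 24 = 20 ∨ S % 24 = 21 ∨ S % 24 = 22 ∨ S % 24 = 23 by omega) with h | h | h | h | h | h | h | h | h | h | h | h | h | h | h | h | h | h | h | h | h | h | h | h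
  · exact ⟨S - 1, by omega, by omega, by omega⟩
  · exact ⟨S - 0, by omega, by omega, by omega⟩
  · exact ⟨S - 1, by omega, by omega, by omega⟩
  · exact ⟨S - 2, by omega, by omega, by omega⟩
  · exact ⟨S - 3, by omega, by omega, by omega⟩
  · exact ⟨S - 4, by omega, by omega, by omega⟩
  · exact ⟨S - 5, by omega, by omega, by omega⟩
  · exact ⟨S - 0, by omega, by omega, by omega⟩
  · exact ⟨S - 1, by omega, by omega, by omega⟩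
  · exact ⟨S - 2, by omega, by omega, by omega⟩
  · exact ⟨S - 3, by omega, by omega, by omega⟩
  · exact ⟨S - 4, by omega, by omega, by omega⟩
  · exact ⟨S - 5, by omega, by omega, by omega⟩
  · exact ⟨S - 6, by omega, by omega, by omega⟩
  · exact ⟨S - 7, by omega, by omega, by omega⟩
  · exact ⟨S - 8, by omega, by omega, by omega⟩
  · exact ⟨S - 9, by omega, by omega, by omega⟩
  · exact ⟨S - 0, by omega, by omega, by omega⟩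
  · exact ⟨S - 1, by omega, by omega, by omega⟩
  · exact ⟨S - 2, by omega, by omega, by omega⟩
  · exact ⟨S - 3, by omega, by omega, by omega⟩
  · exact ⟨S - 4, by omega, by omega, by omega⟩
  · exact ⟨S - 5, by omega, by omega, by omega⟩
  · exact ⟨S - 0, by omega, by omega, by omega⟩

theorem pick9 (S : ℤ) : ∃ s : ℤ, S - 9 ≤ s ∧ s ≤ S ∧ (s % 24 = 5 ∨ s % 24 = 11 ∨ s % 24 = 13 ∨ s % 24 = 19) := by
  rcases (show S % 24 = 0 ∨ S % 24 = 1 ∨ S % 24 = 2 ∨ S % 24 = 3 ∨ S % 24 = 4 ∨ S % 24 = 5 ∨ S % 24 = 6 ∨ S % 24 = 7 ∨ S % 24 = 8 ∨ S % 24 = 9 ∨ S % 24 = 10 ∨ S % 24 = 11 ∨ S % 24 = 12 ∨ S % 24 = 13 ∨ S % 24 = 14 ∨ S % 24 = 15 ∨ S % 24 = 16 ∨ S % 24 = 17 ∨ S % 24 = 18 ∨ S % 24 = 19 ∨ S % 24 = 20 ∨ S % 24 = 21 ∨ S % 24 = 22 ∨ S % 24 = 23 by omega) with h | h | h | h | h | h | h | h | h | h | h | h | h | h | h | h | h | h | h | h | h | h | h | h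
  · exact ⟨S - 5, by omega, by omega, by omega⟩
  · exact ⟨S - 6, by omega, by omega, by omega⟩
  · exact ⟨S - 7, by omega, by omega, by omega⟩
  · exact ⟨S - 8, by omega, by omega, by omega⟩
  · exact ⟨S - 9, by omega, by omega, by omega⟩
  · exact ⟨S - 0, by omega, by omega, by omega⟩
  · exact ⟨S - 1, by omega, by omega, by omega⟩
  · exact ⟨S - 2, by omega, by omega, by omega⟩
  · exact ⟨S - 3, by omega, by omega, by omega⟩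
  · exact ⟨S - 4, by omega, by omega, by omega⟩
  · exact ⟨S - 5, by omega, by omega, by omega⟩
  · exact ⟨S - 0, by omega, by omega, by omega⟩
  · exact ⟨S - 1, by omega, by omega, by omega⟩
  · exact ⟨S - 0, by omega, by omega, by omega⟩
  · exact ⟨S - 1, by omega, by omega, by omega⟩
  · exact ⟨S - 2, by omega, by omega, by omega⟩
  · exact ⟨S - 3, by omega, by omega, by omega⟩
  · exact ⟨S - 4, by omega, by omega, by omega⟩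
  · exact ⟨S - 5, by omega, by omega, by omega⟩
  · exact ⟨S - 0, by omega, by omega, by omega⟩
  · exact ⟨S - 1, by omega, by omega, by omega⟩
  · exact ⟨S - 2, by omega, by omega, by omega⟩
  · exact ⟨S - 3, by omega, by omega, by omega⟩
  · exact ⟨S - 4, by omega, by omega, by omega⟩

theorem pickodd (S : ℤ) : ∃ s : ℤ, S - 9 ≤ s ∧ s ≤ S ∧ (s % 6 = 1 ∨ s % 6 = 5) := by
  rcases (show S % 6 = 0 ∨ S % 6 = 1 ∨ S % 6 = 2 ∨ S % 6 = 3 ∨ S % 6 = 4 ∨ S % 6 = 5 by omega) with h | h | h | h | h | h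
  · exact ⟨S - 1, by omega, by omega, by omega⟩
  · exact ⟨S - 0, by omega, by omega, by omega⟩
  · exact ⟨S - 1, by omega, by omega, by omega⟩
  · exact ⟨S - 2, by omega, by omega, by omega⟩
  · exact ⟨S - 3, by omega, by omega, by omega⟩
  · exact ⟨S - 0, by omega, by omega, by omega⟩

theorem pickeven (S : ℤ) : ∃ s : ℤ, S - 9 ≤ s ∧ s ≤ S ∧ (s % 6 = 2 ∨ s % 6 = 4) := by
  rcases (show S % 6 = 0 ∨ S % 6 = 1 ∨ S % 6 = 2 ∨ S % 6 = 3 ∨ S % 6 = 4 ∨ S % 6 = 5 by omega) with h | h | h | h | h | h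
  · exact ⟨S - 2, by omega, by omega, by omega⟩
  · exact ⟨S - 3, by omega, by omega, by omega⟩
  · exact ⟨S - 0, by omega, by omega, by omega⟩
  · exact ⟨S - 1, by omega, by omega, by omega⟩
  · exact ⟨S - 0, by omega, by omega, by omega⟩
  · exact ⟨S - 1, by omega, by omega, by omega⟩

theorem sq16 (s : ℤ) : ((s % 8 = 1 ∨ s % 8 = 7) → s ^ 2 % 16 = 1) ∧
    ((s % 8 = 3 ∨ s % 8 = 5) → s ^ 2 % 16 = 9) ∧ (s % 4 = 0 → s ^ 2 % 8 = 0) ∧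
    (s % 4 = 2 → s ^ 2 % 8 = 4) := by
  refine ⟨?_, ?_, ?_, ?_⟩
  · rintro (h | h)
    · obtain ⟨q, rfl⟩ : ∃ q, s = 8 * q + 1 := ⟨s / 8, by omega⟩
      have : (8 * q + 1) ^ 2 = 16 * (4 * q ^ 2 + q) + 1 := by ring
      omega
    · obtain ⟨q, rfl⟩ : ∃ q, s = 8 * q + 7 := ⟨s / 8, by omega⟩
      have : (8 * q + 7) ^ 2 = 16 * (4 * q ^ 2 + 7 * q + 3) + 1 := by ring
      omega
  · rintro (h | h)
    · obtain ⟨q, rfl⟩ : ∃ q, s = 8 * q + 3 := ⟨s / 8, by omega⟩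
      have : (8 * q + 3) ^ 2 = 16 * (4 * q ^ 2 + 3 * q) + 9 := by ring
      omega
    · obtain ⟨q, rfl⟩ : ∃ q, s = 8 * q + 5 := ⟨s / 8, by omega⟩
      have : (8 * q + 5) ^ 2 = 16 * (4 * q ^ 2 + 5 * q + 1) + 9 := by ring
      omega
  · intro h
    obtain ⟨q, rfl⟩ : ∃ q, s = 4 * q := ⟨s / 4, by omega⟩
    have : (4 * q) ^ 2 = 8 * (2 * q ^ 2) := by ring
    omega
  · intro h
    obtain ⟨q, rfl⟩ : ∃ q, s = 4 * q + 2 := ⟨s / 4, by omega⟩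
    have : (4 * q + 2) ^ 2 = 8 * (2 * q ^ 2 + 2 * q) + 4 := by ring
    omega

theorem near0 (k : ℤ) (hk : 200000000 ≤ k) (hodd : k % 2 = 1) : Near k 0 1 1 1 := by
  obtain ⟨S, hS⟩ := sqrt_near k hk
  rcases (show k % 4 = 1 ∨ k % 4 = 3 by omega) with h | h
  · obtain ⟨s, h3, h4, h5, h6⟩ : ∃ s : ℤ, 0 ≤ 3 * k - s ^ 2 ∧ 1200 * (3 * k - s ^ 2) < s ^ 2 ∧
        s % 3 ≠ 0 ∧ s % 2 = 0 ∧ (3 * k - s ^ 2) % 8 = 3 := by
      rcases (show k % 8 = 1 ∨ k % 8 = 5 by omega) with g | g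
      · obtain ⟨s, h1, h2, h3⟩ := pick48 S
        obtain ⟨h4, h5⟩ := hS s h1 h2
        have h6 := (sq16 s).2.2.1 (by omega)
        exact ⟨s, h4, h5, by omega, by omega, by omega⟩
      · obtain ⟨s, h1, h2, h3⟩ := pick210 S
        obtain ⟨h4, h5⟩ := hS s h1 h2
        have h6 := (sq16 s).2.2.2 (by omega)
        exact ⟨s, h4, h5, by omega, by omega, by omega⟩
    obtain ⟨h6, h7⟩ := h6
    obtain ⟨u, v, w, hn⟩ := toNat_three h3 h7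
    have e1 := sq_mod4 u
    have e2 := sq_mod4 v
    have e3 := sq_mod4 w
    rw [hn] at h7
    refine build0 k s u v w h4 h5 hn ⟨fun _ => ?_, fun _ => by omega⟩
    clear hn h3 h4 hS
    omega
  · obtain ⟨s, h3, h4, h5, h6, h7⟩ : ∃ s : ℤ, 0 ≤ 3 * k - s ^ 2 ∧ 1200 * (3 * k - s ^ 2) < s ^ 2 ∧
        s % 3 ≠ 0 ∧ s % 2 = 1 ∧ ((3 * k - s ^ 2) % 16 = 4 ∨ (3 * k - s ^ 2) % 16 = 8) := by
      rcases (show (k % 16 = 3 ∨ k % 16 = 7) ∨ (k % 16 = 11 ∨ k % 16 = 15) by omega) with g | g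
      · obtain ⟨s, h1, h2, h3⟩ := pick1 S
        obtain ⟨h4, h5⟩ := hS s h1 h2
        have h6 := (sq16 s).1 (by omega)
        exact ⟨s, h4, h5, by omega, by omega, by omega⟩
      · obtain ⟨s, h1, h2, h3⟩ := pick9 S
        obtain ⟨h4, h5⟩ := hS s h1 h2
        have h6 := (sq16 s).2.1 (by omega)
        exact ⟨s, h4, h5, by omega, by omega, by omega⟩
    obtain ⟨M, hM⟩ : ∃ M, 3 * k - s ^ 2 = 4 * M := ⟨(3 * k - s ^ 2) / 4, by omega⟩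
    obtain ⟨u, v, w, hn⟩ : ∃ x y z : ℤ, M = x ^ 2 + y ^ 2 + z ^ 2 := by
      rcases h7 with h7 | h7
      · exact toNat_one (by omega) (by omega)
      · exact toNat_two (by omega) (by omega)
    refine build0 k s (2 * u) (2 * v) (2 * w) h4 h5 ?_ ⟨fun _ => by omega, fun _ => by omega⟩
    rw [hM, hn]
    ring

theorem near1 (k : ℤ) (hk : 200000000 ≤ k) (hodd : k % 2 = 1) : Near k 1 1 1 0 := by
  obtain ⟨S, hS⟩ := sqrt_near k hk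
  rcases (show k % 4 = 1 ∨ k % 4 = 3 by omega) with h | h
  · obtain ⟨s, h1, h2, h3⟩ := pickodd S
    obtain ⟨h4, h5⟩ := hS s h1 h2
    have h6 := sq_mod4 s
    obtain ⟨u, v, w, hn⟩ := toNat_two h4 (by omega)
    have e1 := sq_mod4 u
    have e2 := sq_mod4 v
    have e3 := sq_mod4 w
    have h7 : (u ^ 2 + v ^ 2 + w ^ 2) % 4 = 2 := by omega
    have h8 : s % 3 ≠ 0 := by omega
    have h9 : s % 2 = 1 := by omega
    rcases (show (u % 2 = 0 ∧ v % 2 = 1 ∧ w % 2 = 1) ∨ (u % 2 = 1 ∧ v % 2 = 0 ∧ w % 2 = 1) ∨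
        (u % 2 = 1 ∧ v % 2 = 1 ∧ w % 2 = 0) by
      clear hn h4 h5 hS h6
      omega) with ⟨g1, g2, g3⟩ | ⟨g1, g2, g3⟩ | ⟨g1, g2, g3⟩
    · exact build1 k s v w u h5 h8 (by linarith) ⟨fun _ => ⟨h9, g2, g3, g1⟩, fun _ => by omega⟩
    · exact build1 k s u w v h5 h8 (by linarith) ⟨fun _ => ⟨h9, g1, g3, g2⟩, fun _ => by omega⟩
    · exact build1 k s u v w h5 h8 (by linarith) ⟨fun _ => ⟨h9, g1, g2, g3⟩, fun _ => by omega⟩
  · obtain ⟨s, h1, h2, h3⟩ := pickeven S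
    obtain ⟨h4, h5⟩ := hS s h1 h2
    have h6 := sq_mod4 s
    obtain ⟨u, v, w, hn⟩ := toNat_one h4 (by omega)
    have e1 := sq_mod4 u
    have e2 := sq_mod4 v
    have e3 := sq_mod4 w
    have h7 : (u ^ 2 + v ^ 2 + w ^ 2) % 4 = 1 := by omega
    have h8 : s % 3 ≠ 0 := by omega
    have h9 : s % 2 = 0 := by omega
    rcases (show (u % 2 = 1 ∧ v % 2 = 0 ∧ w % 2 = 0) ∨ (u % 2 = 0 ∧ v % 2 = 1 ∧ w % 2 = 0) ∨
        (u % 2 = 0 ∧ v % 2 = 0 ∧ w % 2 = 1) by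
      clear hn h4 h5 hS h6
      omega) with ⟨g1, g2, g3⟩ | ⟨g1, g2, g3⟩ | ⟨g1, g2, g3⟩
    · exact build1 k s v w u h5 h8 (by linarith) ⟨fun _ => by omega, fun _ => ⟨h9, g2, g3, g1⟩⟩
    · exact build1 k s u w v h5 h8 (by linarith) ⟨fun _ => by omega, fun _ => ⟨h9, g1, g3, g2⟩⟩
    · exact build1 k s u v w h5 h8 (by linarith) ⟨fun _ => by omega, fun _ => ⟨h9, g1, g2, g3⟩⟩

theorem Near.neg0 {k p0 p1 p2 p3 : ℤ} (h : Near k p0 p1 p2 p3) : Near k (-p0) p1 p2 p3 := by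
  obtain ⟨a, b, c, d, hn, hp, h0⟩ := h
  refine ⟨-a, b, c, d, by rw [← hn]; ring, ⟨fun g => ?_, fun g => ?_⟩, ?_⟩
  · have := hp.1 g
    omega
  · have := hp.2 g
    omega
  · rw [neg_mul_neg]
    exact h0

theorem Near.neg1 {k p0 p1 p2 p3 : ℤ} (h : Near k p0 p1 p2 p3) : Near k p0 (-p1) p2 p3 := by
  obtain ⟨a, b, c, d, hn, hp, h0⟩ := h
  refine ⟨a, -b, c, d, by rw [← hn]; ring, ⟨fun g => ?_, fun g => ?_⟩, ?_⟩
  · have := hp.1 g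
    omega
  · have := hp.2 g
    omega
  · rw [neg_mul_neg]
    exact h0

/-- Exchange the second and the third coordinate. -/
theorem Near.swap12 {k p0 p1 p2 p3 : ℤ} (h : Near k p0 p1 p2 p3) : Near k p0 p2 p1 p3 := by
  obtain ⟨a, b, c, d, hn, hp, h0⟩ := h
  refine ⟨a, c, b, d, by rw [← hn]; ring, ⟨fun g => ?_, fun g => ?_⟩, ?_⟩
  · have := hp.1 g
    omega
  · have := hp.2 g
    omega
  · rw [show a * p0 + c * p2 + b * p1 + d * p3 = a * p0 + b * p1 + c * p2 + d * p3 by ring]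
    exact h0

/-- Exchange the third and the fourth coordinate. -/
theorem Near.swap23 {k p0 p1 p2 p3 : ℤ} (h : Near k p0 p1 p2 p3) : Near k p0 p1 p3 p2 := by
  obtain ⟨a, b, c, d, hn, hp, h0⟩ := h
  refine ⟨a, b, d, c, by rw [← hn]; ring, ⟨fun g => ?_, fun g => ?_⟩, ?_⟩
  · have := hp.1 g
    omega
  · have := hp.2 g
    omega
  · rw [show a * p0 + b * p1 + d * p3 + c * p2 = a * p0 + b * p1 + c * p2 + d * p3 by ring]
    exact h0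

theorem Near.neg2 {k p0 p1 p2 p3 : ℤ} (h : Near k p0 p1 p2 p3) : Near k p0 p1 (-p2) p3 :=
  h.swap12.neg1.swap12

theorem Near.neg3 {k p0 p1 p2 p3 : ℤ} (h : Near k p0 p1 p2 p3) : Near k p0 p1 p2 (-p3) :=
  h.swap23.neg2.swap23

end H65K
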