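import Pool.Agent.Lib.H63.ThreeSquares
import Pool.Agent.Lib.H82O.A01

/-!
# Quaternions of norm `k` near the quaternions of norm `3`, with conditions modulo 3
-/

set_option autoImplicit false

namespace H65P

/-- There is a quaternion of norm `k` close to a multiple of `p` with the conditions modulo `3`. -/
def NearP (k p0 p1 p2 p3 : ℤ) : Prop :=
  ∃ a b c d s : ℤ, 0 < s ∧ a ^ 2 + b ^ 2 + c ^ 2 + d ^ 2 = k ∧ a % 3 = 0 ∧ (b + c + d) % 3 = 0 ∧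
    85 * |3 * a - s * p0| ≤ s ∧ 85 * |3 * b - s * p1| ≤ s ∧ 85 * |3 * c - s * p2| ≤ s ∧
    85 * |3 * d - s * p3| ≤ s

theorem choose18 (k : ℤ) (hk : 10 ^ 12 ≤ k) (c : ℤ) : ∃ s : ℤ, s % 18 = c % 18 ∧ 0 < s ∧
    0 ≤ 3 * k - s ^ 2 ∧ 21675 * (3 * k - s ^ 2) ≤ s ^ 2 := by
  obtain ⟨S, hS0, hS1, hS2⟩ : ∃ S : ℤ, 0 ≤ S ∧ S ^ 2 ≤ 3 * k ∧ 3 * k < (S + 1) ^ 2 := by
    refine ⟨(Nat.sqrt (3 * k).toNat : ℤ), by positivity, ?_, ?_⟩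
    · have h := Nat.sqrt_le' (3 * k).toNat
      have h2 : (((Nat.sqrt (3 * k).toNat) ^ 2 : ℕ) : ℤ) ≤ ((3 * k).toNat : ℤ) := by exact_mod_cast h
      rw [Int.toNat_of_nonneg (by linarith)] at h2
      push_cast at h2
      exact h2
    · have h := Nat.lt_succ_sqrt' (3 * k).toNat
      have h2 : ((3 * k).toNat : ℤ) < (((Nat.sqrt (3 * k).toNat).succ ^ 2 : ℕ) : ℤ) := by
        exact_mod_cast h
      rw [Int.toNat_of_nonneg (by linarith)] at h2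
      push_cast at h2
      exact h2
  have hSbig : 1700000 < S := by
    by_contra hcon
    push Not at hcon
    nlinarith
  have hm0 := Int.emod_nonneg (S - c) (show (18 : ℤ) ≠ 0 by norm_num)
  have hm1 := Int.emod_lt_of_pos (S - c) (show (0 : ℤ) < 18 by norm_num)
  refine ⟨S - (S - c) % 18, by omega, by omega, ?_, ?_⟩
  · nlinarith
  · obtain ⟨t, ht⟩ : ∃ t, t = (S - c) % 18 := ⟨_, rfl⟩
    rw [← ht] at hm0 hm1 ⊢
    nlinarith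

theorem close_of {s e N : ℤ} (hs : 0 < s) (hb : 21675 * N ≤ s ^ 2) (h : e ^ 2 ≤ 3 * N) :
    85 * |e| ≤ s := by
  have h1 : (85 * |e|) ^ 2 ≤ s ^ 2 := by
    rw [mul_pow, sq_abs]
    linarith
  exact (abs_le_of_sq_le_sq' h1 hs.le).2

theorem sq3 (x : ℤ) : (∃ y, x = 3 * y) ∨ ∃ u, x ^ 2 = (1 + 3 * u) ^ 2 := by
  rcases (show x % 3 = 0 ∨ x % 3 = 1 ∨ x % 3 = 2 by omega) with h | h | h
  · exact Or.inl ⟨x / 3, by omega⟩
  · refine Or.inr ⟨x / 3, ?_⟩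
    rw [show 1 + 3 * (x / 3) = x by omega]
  · refine Or.inr ⟨(-x) / 3, ?_⟩
    rw [show 1 + 3 * ((-x) / 3) = -x by omega, neg_sq]

theorem rep9 {N x y z : ℤ} (h9 : N % 9 = 6) (h : N = x ^ 2 + y ^ 2 + z ^ 2) :
    ∃ u v w : ℤ, N = (1 + 3 * u) ^ 2 + (1 + 3 * v) ^ 2 + (1 + 3 * w) ^ 2 ∧ (u + v + w) % 3 = 2 := by
  rcases sq3 x with ⟨x', hx⟩ | ⟨u, hu⟩ <;> rcases sq3 y with ⟨y', hy⟩ | ⟨v, hv⟩ <;>
    rcases sq3 z with ⟨z', hz⟩ | ⟨w, hw⟩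
  · exfalso
    rw [hx, hy, hz] at h
    have : N = 9 * (x' ^ 2 + y' ^ 2 + z' ^ 2) := by rw [h]; ring
    omega
  · exfalso
    rw [hx, hy, hw] at h
    have : N = 3 * (3 * x' ^ 2 + 3 * y' ^ 2 + 2 * w + 3 * w ^ 2) + 1 := by rw [h]; ring
    omega
  · exfalso
    rw [hx, hv, hz] at h
    have : N = 3 * (3 * x' ^ 2 + 3 * z' ^ 2 + 2 * v + 3 * v ^ 2) + 1 := by rw [h]; ring
    omega
  · exfalso
    rw [hx, hv, hw] at h
    have : N = 3 * (3 * x' ^ 2 + 2 * w + 3 * w ^ 2 + 2 * v + 3 * v ^ 2) + 2 := by rw [h]; ring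
    omega
  · exfalso
    rw [hu, hy, hz] at h
    have : N = 3 * (3 * y' ^ 2 + 3 * z' ^ 2 + 2 * u + 3 * u ^ 2) + 1 := by rw [h]; ring
    omega
  · exfalso
    rw [hu, hy, hw] at h
    have : N = 3 * (3 * y' ^ 2 + 2 * w + 3 * w ^ 2 + 2 * u + 3 * u ^ 2) + 2 := by rw [h]; ring
    omega
  · exfalso
    rw [hu, hv, hz] at h
    have : N = 3 * (3 * z' ^ 2 + 2 * v + 3 * v ^ 2 + 2 * u + 3 * u ^ 2) + 2 := by rw [h]; ring
    omega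
  · rw [hu, hv, hw] at h
    refine ⟨u, v, w, h, ?_⟩
    have : N = 9 * (u ^ 2 + v ^ 2 + w ^ 2) + 6 * (u + v + w) + 3 := by rw [h]; ring
    omega

/-- Two of three residues are equal. -/
theorem pair (u v w : ℤ) (h : (u + v + w) % 3 = 2) :
    (u - v) % 3 = 0 ∨ (v - w) % 3 = 0 ∨ (u - w) % 3 = 0 := by
  rcases (show u % 3 = 0 ∨ u % 3 = 1 ∨ u % 3 = 2 by omega) with h1 | h1 | h1 <;>
    rcases (show v % 3 = 0 ∨ v % 3 = 1 ∨ v % 3 = 2 by omega) with h2 | h2 | h2 <;>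
    rcases (show w % 3 = 0 ∨ w % 3 = 1 ∨ w % 3 = 2 by omega) with h3 | h3 | h3 <;>
    omega

theorem toNat_one {N : ℤ} (h0 : 0 ≤ N) (h : N % 4 = 1) :
    ∃ x y z : ℤ, N = x ^ 2 + y ^ 2 + z ^ 2 := by
  obtain ⟨x, y, z, h1⟩ := Pool.Agent.Lib.H82O.three_squares_one_mod_four N.toNat (by omega)
  exact ⟨x, y, z, by rw [← h1, Int.toNat_of_nonneg h0]⟩

theorem toNat_two {N : ℤ} (h0 : 0 ≤ N) (h : N % 4 = 2) :
    ∃ x y z : ℤ, N = x ^ 2 + y ^ 2 + z ^ 2 := by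
  obtain ⟨x, y, z, h1⟩ :=
    Pool.Agent.Lib.H63.ThreeSquares.three_squares_two_mod_four N.toNat (by omega)
  exact ⟨x, y, z, by rw [← h1, Int.toNat_of_nonneg h0]⟩

theorem sq_even {s : ℤ} (h : s % 2 = 0) : s ^ 2 % 4 = 0 := by
  obtain ⟨q, hq⟩ : ∃ q, s = 2 * q := ⟨s / 2, by omega⟩
  have : s ^ 2 = 4 * q ^ 2 := by rw [hq]; ring
  omega

theorem sq_odd {s : ℤ} (h : s % 2 = 1) : s ^ 2 % 4 = 1 := by
  obtain ⟨q, hq⟩ : ∃ q, s = 2 * q + 1 := ⟨s / 2, by omega⟩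
  have : s ^ 2 = 4 * (q ^ 2 + q) + 1 := by rw [hq]; ring
  omega

/-- The choice of `s` divisible by `9`. -/
theorem get9 (k : ℤ) (hk : 10 ^ 12 ≤ k) (h3 : k % 3 = 2) (h4 : k % 2 = 1 ∨ k % 4 = 2) :
    ∃ s' u v w : ℤ, 0 < 9 * s' ∧ 21675 * (3 * k - (9 * s') ^ 2) ≤ (9 * s') ^ 2 ∧
      3 * k - (9 * s') ^ 2 = (1 + 3 * u) ^ 2 + (1 + 3 * v) ^ 2 + (1 + 3 * w) ^ 2 ∧
      (u + v + w) % 3 = 2 := by
  obtain ⟨s, h1, h2, h5, h6, h7⟩ : ∃ s : ℤ, s % 9 = 0 ∧ 0 < s ∧ 0 ≤ 3 * k - s ^ 2 ∧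
      21675 * (3 * k - s ^ 2) ≤ s ^ 2 ∧ ∃ x y z : ℤ, 3 * k - s ^ 2 = x ^ 2 + y ^ 2 + z ^ 2 := by
    rcases (show k % 4 = 1 ∨ k % 4 = 3 ∨ k % 4 = 2 by omega) with g | g | g
    · obtain ⟨s, h1, h2, h5, h6⟩ := choose18 k hk 9
      have := sq_odd (s := s) (by omega)
      exact ⟨s, by omega, h2, h5, h6, toNat_two h5 (by omega)⟩
    · obtain ⟨s, h1, h2, h5, h6⟩ := choose18 k hk 0
      have := sq_even (s := s) (by omega)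
      exact ⟨s, by omega, h2, h5, h6, toNat_one h5 (by omega)⟩
    · obtain ⟨s, h1, h2, h5, h6⟩ := choose18 k hk 0
      have := sq_even (s := s) (by omega)
      exact ⟨s, by omega, h2, h5, h6, toNat_two h5 (by omega)⟩
  obtain ⟨x, y, z, h8⟩ := h7
  obtain ⟨s', rfl⟩ : ∃ s', s = 9 * s' := ⟨s / 9, by omega⟩
  have e : 3 * k - (9 * s') ^ 2 = 3 * k - 9 * (9 * s' ^ 2) := by ring
  obtain ⟨u, v, w, h9, h10⟩ := rep9 (N := 3 * k - (9 * s') ^ 2) (by omega) h8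
  exact ⟨s', u, v, w, h2, h6, h9, h10⟩

theorem nearP1 (k : ℤ) (hk : 10 ^ 12 ≤ k) (h3 : k % 3 = 2) (h4 : k % 2 = 1 ∨ k % 4 = 2) :
    NearP k 0 1 1 1 := by
  obtain ⟨s, u, v, w, hs, hb, hn, hu⟩ := get9 k hk h3 h4
  refine ⟨-(1 + u + v + w), 3 * s + v - w, 3 * s + w - u, 3 * s + u - v, 9 * s, hs, ?_, by omega,
    by omega, ?_, ?_, ?_, ?_⟩
  · nlinarith
  · apply close_of hs hb
    rw [hn]
    nlinarith [sq_nonneg (u - v), sq_nonneg (v - w), sq_nonneg (u - w)]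
  · apply close_of hs hb
    rw [hn]
    nlinarith [sq_nonneg (1 + 3 * v + (1 + 3 * w)), sq_nonneg (1 + 3 * v), sq_nonneg (1 + 3 * w),
      sq_nonneg (1 + 3 * u)]
  · apply close_of hs hb
    rw [hn]
    nlinarith [sq_nonneg (1 + 3 * w + (1 + 3 * u)), sq_nonneg (1 + 3 * v), sq_nonneg (1 + 3 * w),
      sq_nonneg (1 + 3 * u)]
  · apply close_of hs hb
    rw [hn]
    nlinarith [sq_nonneg (1 + 3 * u + (1 + 3 * v)), sq_nonneg (1 + 3 * v), sq_nonneg (1 + 3 * w),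
      sq_nonneg (1 + 3 * u)]

theorem get9pair (k : ℤ) (hk : 10 ^ 12 ≤ k) (h3 : k % 3 = 2) (h4 : k % 2 = 1 ∨ k % 4 = 2) :
    ∃ s' u v w : ℤ, 0 < 9 * s' ∧ 21675 * (3 * k - (9 * s') ^ 2) ≤ (9 * s') ^ 2 ∧
      3 * k - (9 * s') ^ 2 = (1 + 3 * u) ^ 2 + (1 + 3 * v) ^ 2 + (1 + 3 * w) ^ 2 ∧
      (u + v + w) % 3 = 2 ∧ (u - v) % 3 = 0 := by
  obtain ⟨s, u, v, w, hs, hb, hn, hu⟩ := get9 k hk h3 h4
  rcases pair u v w hu with h | h | h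
  · exact ⟨s, u, v, w, hs, hb, hn, hu, h⟩
  · exact ⟨s, v, w, u, hs, hb, by rw [hn]; ring, by omega, h⟩
  · exact ⟨s, u, w, v, hs, hb, by rw [hn]; ring, by omega, h⟩

theorem nearP2 (k : ℤ) (hk : 10 ^ 12 ≤ k) (h3 : k % 3 = 2) (h4 : k % 2 = 1 ∨ k % 4 = 2) :
    NearP k 0 1 1 (-1) := by
  obtain ⟨s, u, v, w, hs, hb, hn, hu, huv⟩ := get9pair k hk h3 h4
  refine ⟨-(1 + u + v + w), 3 * s - v + w, 3 * s + u - w, -(3 * s) + u - v, 9 * s, hs, ?_, by omega,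
    by omega, ?_, ?_, ?_, ?_⟩
  · nlinarith
  · apply close_of hs hb
    rw [hn]
    nlinarith [sq_nonneg (u - v), sq_nonneg (v - w), sq_nonneg (u - w)]
  · apply close_of hs hb
    rw [hn]
    nlinarith [sq_nonneg (1 + 3 * v + (1 + 3 * w)), sq_nonneg (1 + 3 * v), sq_nonneg (1 + 3 * w),
      sq_nonneg (1 + 3 * u)]
  · apply close_of hs hb
    rw [hn]
    nlinarith [sq_nonneg (1 + 3 * w + (1 + 3 * u)), sq_nonneg (1 + 3 * v), sq_nonneg (1 + 3 * w),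
      sq_nonneg (1 + 3 * u)]
  · apply close_of hs hb
    rw [hn]
    nlinarith [sq_nonneg (1 + 3 * u + (1 + 3 * v)), sq_nonneg (1 + 3 * v), sq_nonneg (1 + 3 * w),
      sq_nonneg (1 + 3 * u)]

theorem nearP3 (k : ℤ) (hk : 10 ^ 12 ≤ k) (h3 : k % 3 = 2) (h4 : k % 2 = 1 ∨ k % 4 = 2) :
    NearP k 1 1 1 0 := by
  obtain ⟨s, u, v, w, hs, hb, hn, hu, huv⟩ := get9pair k hk h3 h4
  refine ⟨3 * s - u + v, 3 * s + u - w, 3 * s - v + w, 1 + u + v + w, 9 * s, hs, ?_, by omega,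
    by omega, ?_, ?_, ?_, ?_⟩
  · nlinarith
  · apply close_of hs hb
    rw [hn]
    nlinarith [sq_nonneg (1 + 3 * u + (1 + 3 * v)), sq_nonneg (1 + 3 * v), sq_nonneg (1 + 3 * w),
      sq_nonneg (1 + 3 * u)]
  · apply close_of hs hb
    rw [hn]
    nlinarith [sq_nonneg (1 + 3 * w + (1 + 3 * u)), sq_nonneg (1 + 3 * v), sq_nonneg (1 + 3 * w),
      sq_nonneg (1 + 3 * u)]
  · apply close_of hs hb
    rw [hn]
    nlinarith [sq_nonneg (1 + 3 * v + (1 + 3 * w)), sq_nonneg (1 + 3 * v), sq_nonneg (1 + 3 * w),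
      sq_nonneg (1 + 3 * u)]
  · apply close_of hs hb
    rw [hn]
    nlinarith [sq_nonneg (u - v), sq_nonneg (v - w), sq_nonneg (u - w)]

/-- The choice of `s` congruent to `1` modulo `3`. -/
theorem get1 (k : ℤ) (hk : 10 ^ 12 ≤ k) (h3 : k % 3 = 2) (h4 : k % 2 = 1 ∨ k % 4 = 2) :
    ∃ s' u v w : ℤ, 0 < 1 + 3 * s' ∧ 21675 * (3 * k - (1 + 3 * s') ^ 2) ≤ (1 + 3 * s') ^ 2 ∧
      3 * k - (1 + 3 * s') ^ 2 = (1 + 3 * u) ^ 2 + (1 + 3 * v) ^ 2 + (3 * w) ^ 2 ∧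
      (s' + u + v) % 3 = 2 := by
  obtain ⟨s, h1, h2, h5, h6, h7⟩ : ∃ s : ℤ, s % 3 = 1 ∧ 0 < s ∧ 0 ≤ 3 * k - s ^ 2 ∧
      21675 * (3 * k - s ^ 2) ≤ s ^ 2 ∧ ∃ x y z : ℤ, 3 * k - s ^ 2 = x ^ 2 + y ^ 2 + z ^ 2 := by
    rcases (show k % 4 = 1 ∨ k % 4 = 3 ∨ k % 4 = 2 by omega) with g | g | g
    · obtain ⟨s, h1, h2, h5, h6⟩ := choose18 k hk 1
      have := sq_odd (s := s) (by omega)
      exact ⟨s, by omega, h2, h5, h6, toNat_two h5 (by omega)⟩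
    · obtain ⟨s, h1, h2, h5, h6⟩ := choose18 k hk 4
      have := sq_even (s := s) (by omega)
      exact ⟨s, by omega, h2, h5, h6, toNat_one h5 (by omega)⟩
    · obtain ⟨s, h1, h2, h5, h6⟩ := choose18 k hk 4
      have := sq_even (s := s) (by omega)
      exact ⟨s, by omega, h2, h5, h6, toNat_two h5 (by omega)⟩
  obtain ⟨x, y, z, h⟩ := h7
  obtain ⟨s', rfl⟩ : ∃ s', s = 1 + 3 * s' := ⟨s / 3, by omega⟩
  obtain ⟨κ, hκ⟩ : ∃ κ, k = 3 * κ + 2 := ⟨k / 3, by omega⟩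
  have e : 3 * k - (1 + 3 * s') ^ 2 = 9 * (κ - s' ^ 2) + 5 - 6 * s' := by rw [hκ]; ring
  have key : ∀ u v w : ℤ, 3 * k - (1 + 3 * s') ^ 2 = (1 + 3 * u) ^ 2 + (1 + 3 * v) ^ 2 + (3 * w) ^ 2 →
      (s' + u + v) % 3 = 2 := by
    intro u v w h
    have : 3 * k - (1 + 3 * s') ^ 2 = 9 * (u ^ 2 + v ^ 2 + w ^ 2) + 6 * u + 6 * v + 2 := by rw [h]; ring
    omega
  rcases sq3 x with ⟨x', hx⟩ | ⟨u, hu⟩ <;> rcases sq3 y with ⟨y', hy⟩ | ⟨v, hv⟩ <;>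
    rcases sq3 z with ⟨z', hz⟩ | ⟨w, hw⟩
  · exfalso
    rw [hx, hy, hz] at h
    have : 3 * k - (1 + 3 * s') ^ 2 = 9 * (x' ^ 2 + y' ^ 2 + z' ^ 2) := by rw [h]; ring
    omega
  · exfalso
    rw [hx, hy, hw] at h
    have : 3 * k - (1 + 3 * s') ^ 2 = 3 * (3 * x' ^ 2 + 3 * y' ^ 2 + 2 * w + 3 * w ^ 2) + 1 := by
      rw [h]; ring
    omega
  · exfalso
    rw [hx, hv, hz] at h
    have : 3 * k - (1 + 3 * s') ^ 2 = 3 * (3 * x' ^ 2 + 3 * z' ^ 2 + 2 * v + 3 * v ^ 2) + 1 := by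
      rw [h]; ring
    omega
  · rw [hx, hv, hw] at h
    have h' : 3 * k - (1 + 3 * s') ^ 2 = (1 + 3 * v) ^ 2 + (1 + 3 * w) ^ 2 + (3 * x') ^ 2 := by
      rw [h]; ring
    exact ⟨s', v, w, x', h2, h6, h', key _ _ _ h'⟩
  · exfalso
    rw [hu, hy, hz] at h
    have : 3 * k - (1 + 3 * s') ^ 2 = 3 * (3 * y' ^ 2 + 3 * z' ^ 2 + 2 * u + 3 * u ^ 2) + 1 := by
      rw [h]; ring
    omega
  · rw [hu, hy, hw] at h
    have h' : 3 * k - (1 + 3 * s') ^ 2 = (1 + 3 * u) ^ 2 + (1 + 3 * w) ^ 2 + (3 * y') ^ 2 := by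
      rw [h]; ring
    exact ⟨s', u, w, y', h2, h6, h', key _ _ _ h'⟩
  · rw [hu, hv, hz] at h
    exact ⟨s', u, v, z', h2, h6, h, key _ _ _ h⟩
  · exfalso
    rw [hu, hv, hw] at h
    have : 3 * k - (1 + 3 * s') ^ 2 =
        3 * (3 * u ^ 2 + 2 * u + 2 * w + 3 * w ^ 2 + 2 * v + 3 * v ^ 2 + 1) := by rw [h]; ring
    omega

theorem nearP4 (k : ℤ) (hk : 10 ^ 12 ≤ k) (h3 : k % 3 = 2) (h4 : k % 2 = 1 ∨ k % 4 = 2) :
    NearP k 1 1 (-1) 0 := by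
  obtain ⟨s, u, v, w, hs, hb, hn, hu⟩ := get1 k hk h3 h4
  refine ⟨1 + s + u + v, s - u + w, -s + v + w, w + u - v, 1 + 3 * s, hs, ?_, by omega,
    by omega, ?_, ?_, ?_, ?_⟩
  · nlinarith
  · apply close_of hs hb
    rw [hn]
    nlinarith [sq_nonneg (u - v), sq_nonneg (1 + 3 * v), sq_nonneg (3 * w), sq_nonneg (1 + 3 * u)]
  · apply close_of hs hb
    rw [hn]
    nlinarith [sq_nonneg (1 + 3 * u + 3 * w), sq_nonneg (1 + 3 * v), sq_nonneg (3 * w),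
      sq_nonneg (1 + 3 * u)]
  · apply close_of hs hb
    rw [hn]
    nlinarith [sq_nonneg (1 + 3 * v - 3 * w), sq_nonneg (1 + 3 * v), sq_nonneg (3 * w),
      sq_nonneg (1 + 3 * u)]
  · apply close_of hs hb
    rw [hn]
    nlinarith [sq_nonneg (1 + 3 * u + (1 + 3 * v)), sq_nonneg (1 + 3 * v + 3 * w),
      sq_nonneg (1 + 3 * u - 3 * w), sq_nonneg (1 + 3 * v), sq_nonneg (3 * w), sq_nonneg (1 + 3 * u)]

theorem NearP.neg0 {k p0 p1 p2 p3 : ℤ} (h : NearP k p0 p1 p2 p3) : NearP k (-p0) p1 p2 p3 := by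
  obtain ⟨a, b, c, d, s, hs, hn, ha, hb, h0, h1, h2, h3⟩ := h
  refine ⟨-a, b, c, d, s, hs, by rw [← hn]; ring, by omega, hb, ?_, h1, h2, h3⟩
  rw [show 3 * -a - s * -p0 = -(3 * a - s * p0) by ring, abs_neg]
  exact h0

/-- Exchange the second and the third coordinate. -/
theorem NearP.swap12 {k p0 p1 p2 p3 : ℤ} (h : NearP k p0 p1 p2 p3) : NearP k p0 p2 p1 p3 := by
  obtain ⟨a, b, c, d, s, hs, hn, ha, hb, h0, h1, h2, h3⟩ := h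
  exact ⟨a, c, b, d, s, hs, by rw [← hn]; ring, ha, by omega, h0, h2, h1, h3⟩

/-- Exchange the third and the fourth coordinate. -/
theorem NearP.swap23 {k p0 p1 p2 p3 : ℤ} (h : NearP k p0 p1 p2 p3) : NearP k p0 p1 p3 p2 := by
  obtain ⟨a, b, c, d, s, hs, hn, ha, hb, h0, h1, h2, h3⟩ := h
  exact ⟨a, b, d, c, s, hs, by rw [← hn]; ring, ha, by omega, h0, h1, h3, h2⟩

end H65P
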