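import Pool.Agent.Lib.H65H.CoverP
import Pool.Agent.Lib.H34S.Pent

/-!
# Sums of three pentagonal numbers and large square divisors
-/

set_option autoImplicit false

namespace H65P

open H65H

theorem XP1_mod {a b c d x y z : ℤ} (ha : a % 3 = 0) (hb : (b + c + d) % 3 = 0)
    (hx : x % 3 = 2) (hy : y % 3 = 2) (hz : z % 3 = 2) :
    (X1 a b c d x y z - (a ^ 2 + b ^ 2 + c ^ 2 + d ^ 2)) % 3 = 0 := by
  obtain ⟨a', rfl⟩ : ∃ a', a = 3 * a' := ⟨a / 3, by omega⟩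
  obtain ⟨e, he⟩ : ∃ e, b + c + d = 3 * e := ⟨(b + c + d) / 3, by omega⟩
  obtain ⟨x', rfl⟩ : ∃ x', x = 3 * x' - 1 := ⟨(x + 1) / 3, by omega⟩
  obtain ⟨y', rfl⟩ : ∃ y', y = 3 * y' - 1 := ⟨(y + 1) / 3, by omega⟩
  obtain ⟨z', rfl⟩ : ∃ z', z = 3 * z' - 1 := ⟨(z + 1) / 3, by omega⟩
  have : X1 (3 * a') b c d (3 * x' - 1) (3 * y' - 1) (3 * z' - 1) -
      ((3 * a') ^ 2 + b ^ 2 + c ^ 2 + d ^ 2) =
      3 * (((3 * a') ^ 2 + b ^ 2 - c ^ 2 - d ^ 2) * x' + 2 * (b * c - 3 * a' * d) * y' +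
        2 * (b * d + 3 * a' * c) * z' - 6 * a' ^ 2 - 2 * b * e + 2 * a' * (d - c)) := by
    unfold X1
    linear_combination (-2 * b) * he
  omega

theorem XP_mod {a b c d x y z : ℤ} (ha : a % 3 = 0) (hb : (b + c + d) % 3 = 0)
    (hx : x % 3 = 2) (hy : y % 3 = 2) (hz : z % 3 = 2) :
    (X1 a b c d x y z - (a ^ 2 + b ^ 2 + c ^ 2 + d ^ 2)) % 3 = 0 ∧
    (X2 a b c d x y z - (a ^ 2 + b ^ 2 + c ^ 2 + d ^ 2)) % 3 = 0 ∧
    (X3 a b c d x y z - (a ^ 2 + b ^ 2 + c ^ 2 + d ^ 2)) % 3 = 0 := by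
  refine ⟨XP1_mod ha hb hx hy hz, ?_, ?_⟩
  · have h := XP1_mod (a := a) (b := c) (c := d) (d := b) ha (by omega) hy hz hx
    have e : X1 a c d b y z x = X2 a b c d x y z := by unfold X1 X2; ring
    rw [e] at h
    have e2 : a ^ 2 + c ^ 2 + d ^ 2 + b ^ 2 = a ^ 2 + b ^ 2 + c ^ 2 + d ^ 2 := by ring
    rwa [e2] at h
  · have h := XP1_mod (a := a) (b := d) (c := b) (d := c) ha (by omega) hz hx hy
    have e : X1 a d b c z x y = X3 a b c d x y z := by unfold X1 X3; ring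
    rw [e] at h
    have e2 : a ^ 2 + d ^ 2 + b ^ 2 + c ^ 2 = a ^ 2 + b ^ 2 + c ^ 2 + d ^ 2 := by ring
    rwa [e2] at h

/-- From three positive integers congruent to `2` modulo `3`. -/
theorem good6 {n : ℕ} {x y z : ℤ} (hx : 0 < x) (hy : 0 < y) (hz : 0 < z)
    (gx : x % 3 = 2) (gy : y % 3 = 2) (gz : z % 3 = 2)
    (h : 24 * (n : ℤ) + 3 = x ^ 2 + y ^ 2 + z ^ 2) : H34S.Good 6 (24 * n + 3) := by
  obtain ⟨ox, oy, oz⟩ := H34S.all_odd (by omega) h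
  obtain ⟨a, ha⟩ : ∃ a : ℕ, x = 6 * a + 5 := ⟨(x / 6).toNat, by omega⟩
  obtain ⟨b, hb⟩ : ∃ b : ℕ, y = 6 * b + 5 := ⟨(y / 6).toNat, by omega⟩
  obtain ⟨c, hc⟩ : ∃ c : ℕ, z = 6 * c + 5 := ⟨(z / 6).toNat, by omega⟩
  refine ⟨a, b, c, ?_⟩
  rw [h, ha, hb, hc]
  push_cast
  ring

theorem pentOK_large (k : ℕ) (hk : 10 ^ 12 ≤ k) (h3 : k % 3 ≠ 0) : H34S.PentOK k := by
  rintro n ⟨m, hm⟩
  have hodd : k % 2 = 1 := by
    rcases Nat.mod_two_eq_zero_or_one k with h0 | h0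
    · exfalso
      obtain ⟨j, hj⟩ : ∃ j, k = 2 * j := ⟨k / 2, by omega⟩
      rw [hj] at hm
      have : (2 * j) ^ 2 * m = 2 * (2 * j ^ 2 * m) := by ring
      omega
    · exact h0
  obtain ⟨v, hv, e⟩ := H34S.rep6 (H34S.quot8 hm) (H34S.quot_mod3 h3 hm)
  obtain ⟨x, y, z⟩ := v
  obtain ⟨v1, v2, v3⟩ := hv
  simp only at v1 v2 v3 e
  push_cast at v1 v2 v3
  have x3 : x % 3 = 2 := by omega
  have y3 : y % 3 = 2 := by omega
  have z3 : z % 3 = 2 := by omega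
  have x0 : x ≠ 0 := by rintro rfl; omega
  have y0 : y ≠ 0 := by rintro rfl; omega
  have z0 : z ≠ 0 := by rintro rfl; omega
  have hm' : 24 * (n : ℤ) + 3 = (k : ℤ) ^ 2 * m := by exact_mod_cast hm
  rcases (show k % 3 = 2 ∨ k % 3 = 1 by omega) with h | h
  · obtain ⟨a, b, c, d, hn, ha, hb, p1, p2, p3⟩ :=
      goodP_all (k := (k : ℤ)) (by exact_mod_cast hk) (by omega) (Or.inl (by omega)) x0 y0 z0
    obtain ⟨q1, q2, q3⟩ := XP_mod ha hb x3 y3 z3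
    rw [hn] at q1 q2 q3
    refine good6 p1 p2 p3 (by omega) (by omega) (by omega) ?_
    rw [X_norm, hn, hm', e]
  · obtain ⟨a, b, c, d, hn, ha, hb, p1, p2, p3⟩ :=
      goodP_all (k := 2 * (k : ℤ)) (x := -x) (y := -y) (z := -z)
        (by have : (10 : ℤ) ^ 12 ≤ k := by exact_mod_cast hk
            linarith) (by omega) (Or.inr (by omega)) (by omega) (by omega) (by omega)
    obtain ⟨q1, q2, q3⟩ := XP_mod ha hb x3 y3 z3
    rw [hn] at q1 q2 q3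
    have n1 : X1 a b c d (-x) (-y) (-z) = -X1 a b c d x y z := by unfold X1; ring
    have n2 : X2 a b c d (-x) (-y) (-z) = -X2 a b c d x y z := by unfold X2; ring
    have n3 : X3 a b c d (-x) (-y) (-z) = -X3 a b c d x y z := by unfold X3; ring
    rw [n1] at p1
    rw [n2] at p2
    rw [n3] at p3
    obtain ⟨u, hu⟩ : ∃ u, X1 a b c d x y z = 2 * u :=
      ⟨(k - c ^ 2 - d ^ 2) * x + (b * c - a * d) * y + (b * d + a * c) * z, by
        unfold X1; linear_combination x * hn⟩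
    obtain ⟨v, hv⟩ : ∃ v, X2 a b c d x y z = 2 * v :=
      ⟨(b * c + a * d) * x + (k - b ^ 2 - d ^ 2) * y + (c * d - a * b) * z, by
        unfold X2; linear_combination y * hn⟩
    obtain ⟨w, hw⟩ : ∃ w, X3 a b c d x y z = 2 * w :=
      ⟨(b * d - a * c) * x + (c * d + a * b) * y + (k - b ^ 2 - c ^ 2) * z, by
        unfold X3; linear_combination z * hn⟩
    have hX := X_norm a b c d x y z
    rw [hu, hv, hw, hn] at hX
    rw [hu] at p1 q1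
    rw [hv] at p2 q2
    rw [hw] at p3 q3
    refine good6 (x := -u) (y := -v) (z := -w) (by linarith) (by linarith) (by linarith)
      (by omega) (by omega) (by omega) ?_
    rw [hm', e]
    linarith

end H65P
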