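import Pool.Agent.Lib.H63.ThreeSquares

/-!
# The three squares theorem for `n ≡ 3 (mod 8)`
-/

set_option autoImplicit false

namespace H65H

open scoped NumberTheorySymbols in
/-- Every `n ≡ 3 (mod 8)` is a sum of three integer squares. -/
theorem three_squares_three_mod_eight (n : ℕ) (hn : n % 8 = 3) :
    ∃ x y z : ℤ, (n : ℤ) = x ^ 2 + y ^ 2 + z ^ 2 := by
  obtain ⟨e, he⟩ : ∃ e, 2 * e = n - 1 := ⟨(n - 1) / 2, by omega⟩
  have he2 : 2 * e + 1 = n := by omega
  have hcop : e.Coprime (4 * n) := by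
    have h1 : e.Coprime n := by
      rw [Nat.coprime_iff_gcd_eq_one]
      have hd1 : Nat.gcd e n ∣ n := Nat.gcd_dvd_right e n
      nth_rewrite 2 [← he2] at hd1
      have hd2 : Nat.gcd e n ∣ 2 * e := (Nat.gcd_dvd_left e n).mul_left 2
      exact Nat.dvd_one.mp ((Nat.dvd_add_right hd2).mp hd1)
    have h2 : e.Coprime 4 := by
      have : Odd e := by rw [Nat.odd_iff]; omega
      have h3 : e.Coprime 2 := Nat.Coprime.symm (Nat.coprime_two_left.mpr this)
      simpa using Nat.Coprime.pow_right 2 h3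
    exact Nat.Coprime.mul_right h2 h1
  obtain ⟨p, hpgt, hpp, hpmod⟩ :=
    Nat.forall_exists_prime_gt_and_modEq (4 * n) (q := 4 * n) (by omega) hcop
  obtain ⟨j, hj⟩ : ∃ j, p = 4 * n * j + e := by
    have h1 : p % (4 * n) = e % (4 * n) := hpmod
    rw [Nat.mod_eq_of_lt (show e < 4 * n by omega)] at h1
    exact ⟨p / (4 * n), by rw [← h1]; exact (Nat.div_add_mod p (4 * n)).symm⟩
  set d := 8 * j + 1 with hd
  have hpd : 2 * (p : ℤ) = d * n - 1 := by
    rw [hj, hd]; push_cast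
    have : 2 * (e : ℤ) = n - 1 := by omega
    linear_combination this
  have : Fact p.Prime := ⟨hpp⟩
  have hpmod4 : p % 4 = e % 4 := by
    have h4 : 4 * n * j = 4 * (n * j) := by ring
    rw [hj, h4]; omega
  have hpodd : Odd p := by rw [Nat.odd_iff]; omega
  have hdodd : Odd d := by rw [Nat.odd_iff]; omega
  have f1 : J(-2 | d) = 1 := by
    rw [jacobiSym.at_neg_two hdodd]
    have : ((d : ℕ) : ZMod 8) = 1 := by
      rw [hd]; push_cast
      have : (8 : ZMod 8) = 0 := by decide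
      rw [this]; ring
    rw [this]; decide
  have f2 : J(-2 * (p : ℤ) | d) = 1 := by
    have : J(-2 * (p : ℤ) | d) = J(1 | d) := by
      apply jacobiSym.mod_left'
      have : -2 * (p : ℤ) = 1 + d * (-n) := by linear_combination (-1 : ℤ) * hpd
      rw [this, Int.add_mul_emod_self_left]
    rw [this, jacobiSym.one_left]
  have f3 : J((p : ℤ) | d) = 1 := by
    rw [jacobiSym.mul_left, f1, one_mul] at f2
    exact f2
  have hsym : J(-(d : ℤ) | p) = 1 := by
    have e1 : J(-(d : ℤ) | p) = J(-1 | p) * J((d : ℤ) | p) := by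
      rw [← jacobiSym.mul_left]; simp
    have h : p % 4 = 1 := by omega
    have e2 : J(-1 | p) = 1 := by
      rw [jacobiSym.at_neg_one hpodd, ZMod.χ₄_nat_one_mod_four h]
    have e3 : J((p : ℤ) | d) = J((d : ℤ) | p) :=
      jacobiSym.quadratic_reciprocity_one_mod_four h hdodd
    rw [e1, e2, ← e3, f3]; norm_num
  have hsq : IsSquare ((-(d : ℤ) : ℤ) : ZMod p) := by
    rw [← jacobiSym.legendreSym.to_jacobiSym] at hsym
    by_contra hcon
    rw [← legendreSym.eq_neg_one_iff p] at hcon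
    rw [hcon] at hsym
    norm_num at hsym
  obtain ⟨r0, hr0⟩ := hsq
  obtain ⟨r, hr⟩ : ∃ r : ℤ, (r : ZMod p) = r0 := ⟨r0.val, by simp⟩
  have hdvd : (p : ℤ) ∣ r ^ 2 + d := by
    rw [← ZMod.intCast_zmod_eq_zero_iff_dvd]
    push_cast
    rw [hr]
    push_cast at hr0
    linear_combination (-1 : ZMod p) * hr0
  obtain ⟨r', hr'odd, hr'⟩ : ∃ r' : ℤ, r' % 2 = 1 ∧ (p : ℤ) ∣ r' ^ 2 + d := by
    rcases Int.emod_two_eq_zero_or_one r with h | h
    · refine ⟨r + p, ?_, ?_⟩
      · have : (p : ℤ) % 2 = 1 := by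
          have := Nat.odd_iff.mp hpodd; omega
        omega
      · have : (r + p) ^ 2 + (d : ℤ) = (r ^ 2 + d) + p * (2 * r + p) := by ring
        rw [this]
        exact dvd_add hdvd (dvd_mul_right _ _)
    · exact ⟨r, h, hdvd⟩
  have h2dvd : (2 : ℤ) ∣ r' ^ 2 + d := by
    obtain ⟨s, hs⟩ : ∃ s, r' = 2 * s + 1 := ⟨r' / 2, by omega⟩
    refine ⟨2 * s ^ 2 + 2 * s + 4 * j + 1, ?_⟩
    rw [hs, hd]; push_cast; ring
  have h2p : (2 : ℤ) * p ∣ r' ^ 2 + d := by
    apply IsCoprime.mul_dvd _ h2dvd hr'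
    rw [show (2 : ℤ) = ((2 : ℕ) : ℤ) by norm_num, Nat.isCoprime_iff_coprime]
    exact Nat.coprime_two_left.mpr hpodd
  obtain ⟨k, hk⟩ := h2p
  refine Pool.Agent.Lib.H63.ThreeSquares.three_squares_of_sq (n := n) (d' := d) (r := r') (k := k)
    (by omega) ?_ ?_
  · rw [← hpd]; have := hpp.pos; positivity
  · rw [← hpd, hk]; ring

end H65H
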